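import Mathlib

/-!
# Semigroups of holomorphic self-maps of the unit disc: definitions
-/

set_option autoImplicit false

open Complex Set Filter Topology Metric

namespace Pool.Agent.NH66.Speed

/-- `φ` is a continuous semigroup of holomorphic self-maps of the unit disc.  Only the times
`t ≥ 0` and the points of the unit disc matter; continuity of `t ↦ φ t` is for the locally
uniform convergence on the disc. -/
structure IsSemigroup (φ : ℝ → ℂ → ℂ) : Prop where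
  holo : ∀ t : ℝ, 0 ≤ t → DifferentiableOn ℂ (φ t) (ball 0 1)
  maps : ∀ t : ℝ, 0 ≤ t → ∀ z ∈ ball (0 : ℂ) 1, φ t z ∈ ball (0 : ℂ) 1
  zero : ∀ z ∈ ball (0 : ℂ) 1, φ 0 z = z
  add : ∀ s t : ℝ, 0 ≤ s → 0 ≤ t → ∀ z ∈ ball (0 : ℂ) 1, φ (t + s) z = φ t (φ s z)
  cont : ∀ t : ℝ, 0 ≤ t → TendstoLocallyUniformlyOn φ (φ t) (𝓝[Ici 0] t) (ball 0 1)

/-- The maps of the semigroup have no common fixed point in the disc. -/
def IsNonElliptic (φ : ℝ → ℂ → ℂ) : Prop :=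
  ¬ ∃ z ∈ ball (0 : ℂ) 1, ∀ t : ℝ, 0 ≤ t → φ t z = z

/-- `τ` is the Denjoy-Wolff point of the semigroup: a point of the unit circle to which all
orbits converge. -/
def IsDenjoyWolff (φ : ℝ → ℂ → ℂ) (τ : ℂ) : Prop :=
  ‖τ‖ = 1 ∧ ∀ z ∈ ball (0 : ℂ) 1, Tendsto (fun t => φ t z) atTop (𝓝 τ)

/-- The hyperbolic distance of the disc, normalised by
`k(0, z) = (1/2) log ((1 + |z|) / (1 - |z|))`. -/
noncomputable def hypDist (z w : ℂ) : ℝ :=
  1 / 2 * Real.log ((1 + ‖(z - w) / (1 - (starRingEnd ℂ) w * z)‖) /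
    (1 - ‖(z - w) / (1 - (starRingEnd ℂ) w * z)‖))

/-- The diameter `(-1, 1) τ`. -/
def diameter (τ : ℂ) : Set ℂ := {z | ∃ r : ℝ, -1 < r ∧ r < 1 ∧ z = (r : ℂ) * τ}

/-- `p` is a point of the diameter `(-1, 1) τ` closest to `z` in the hyperbolic distance. -/
def IsProj (τ z p : ℂ) : Prop :=
  p ∈ diameter τ ∧ ∀ γ ∈ diameter τ, hypDist z p ≤ hypDist z γ

/-- `v` is the orthogonal speed of the semigroup `φ` with Denjoy-Wolff point `τ`:
`v t = k(0, π(φ_t(0)))` for `t ≥ 0`, with `π` the closest point projection to the diameter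
through `τ`. -/
def IsOrthSpeed (φ : ℝ → ℂ → ℂ) (τ : ℂ) (v : ℝ → ℝ) : Prop :=
  ∀ t : ℝ, 0 ≤ t → ∃ p : ℂ, IsProj τ (φ t 0) p ∧ v t = hypDist 0 p

end Pool.Agent.NH66.Speed
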