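import Pool.Agent.NH66.Speed.Defs

/-!
# The infinitesimal generator
-/

set_option autoImplicit false

open Complex Set Filter Topology Metric MeasureTheory
open scoped Interval

namespace Pool.Agent.NH66.Speed

variable {φ : ℝ → ℂ → ℂ}

theorem IsSemigroup.contOn (h : IsSemigroup φ) {z : ℂ} (hz : z ∈ ball (0 : ℂ) 1) :
    ContinuousOn (fun s => φ s z) (Ici 0) := fun t ht => (h.cont t ht).tendsto_at hz

theorem IsSemigroup.contOn_deriv (h : IsSemigroup φ) {z : ℂ} (hz : z ∈ ball (0 : ℂ) 1) :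
    ContinuousOn (fun s => deriv (φ s) z) (Ici 0) := by
  intro t ht
  have := (h.cont t ht).deriv (eventually_mem_nhdsWithin.mono fun s hs => h.holo s hs) isOpen_ball
  exact this.tendsto_at hz

/-- the integrated semigroup -/
noncomputable def fJ (φ : ℝ → ℂ → ℂ) (δ : ℝ) (z : ℂ) : ℂ := ∫ s in (0:ℝ)..δ, φ s z

theorem hasDerivAt_fJ (h : IsSemigroup φ) {δ : ℝ} (hδ : 0 ≤ δ) {z : ℂ} (hz : z ∈ ball (0 : ℂ) 1) :
    HasDerivAt (fJ φ δ) (∫ s in (0:ℝ)..δ, deriv (φ s) z) z := by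
  have hz1 : ‖z‖ < 1 := by simpa using hz
  set r : ℝ := (1 - ‖z‖) / 2 with hr
  have hr0 : 0 < r := by rw [hr]; linarith
  have hI : ∀ t ∈ Ι (0:ℝ) δ, 0 ≤ t := by
    intro t ht
    rw [uIoc_of_le hδ] at ht
    exact ht.1.le
  have hsub : ∀ x ∈ ball z r, ball x r ⊆ ball (0 : ℂ) 1 := by
    intro x hx y hy
    rw [mem_ball_iff_norm] at hx hy
    rw [mem_ball_zero_iff]
    calc ‖y‖ = ‖(y - x) + (x - z) + z‖ := by congr 1; ring
      _ ≤ ‖(y - x) + (x - z)‖ + ‖z‖ := norm_add_le _ _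
      _ ≤ ‖y - x‖ + ‖x - z‖ + ‖z‖ := by gcongr; exact norm_add_le _ _
      _ < r + r + ‖z‖ := by gcongr
      _ = 1 := by rw [hr]; ring
  have hin : ∀ x ∈ ball z r, x ∈ ball (0 : ℂ) 1 := fun x hx =>
    hsub x hx (mem_ball_self hr0)
  have hmeas : ∀ x ∈ ball (0 : ℂ) 1, AEStronglyMeasurable (fun s => φ s x)
      (volume.restrict (Ι (0:ℝ) δ)) := by
    intro x hx
    apply ContinuousOn.aestronglyMeasurable _ measurableSet_uIoc
    exact (h.contOn hx).mono hI
  refine (intervalIntegral.hasDerivAt_integral_of_dominated_loc_of_deriv_le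
    (F := fun x s => φ s x) (F' := fun x s => deriv (φ s) x) (bound := fun _ => 2 / r)
    (s := ball z r) (ball_mem_nhds z hr0) ?_ ?_ ?_ ?_ ?_ ?_).2
  · filter_upwards [ball_mem_nhds z hr0] with x hx using hmeas x (hin x hx)
  · apply ContinuousOn.intervalIntegrable
    apply (h.contOn hz).mono
    intro s hs
    rw [uIcc_of_le hδ] at hs
    exact hs.1
  · apply ContinuousOn.aestronglyMeasurable _ measurableSet_uIoc
    exact (h.contOn_deriv hz).mono hI
  · refine Eventually.of_forall fun t ht x hx => ?_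
    have ht0 := hI t ht
    apply norm_deriv_le_div_of_mapsTo_ball ((h.holo t ht0).mono (hsub x hx)) _ hr0
    intro y hy
    have h1 := h.maps t ht0 y (hsub x hx hy)
    have h2 := h.maps t ht0 x (hin x hx)
    rw [mem_ball_zero_iff] at h1 h2
    rw [mem_closedBall, dist_eq_norm]
    calc ‖φ t y - φ t x‖ ≤ ‖φ t y‖ + ‖φ t x‖ := norm_sub_le _ _
      _ ≤ 2 := by linarith
  · exact intervalIntegrable_const
  · refine Eventually.of_forall fun t ht x hx => ?_
    exact ((h.holo t (hI t ht)).differentiableAt (isOpen_ball.mem_nhds (hin x hx))).hasDerivAt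

theorem differentiableOn_fJ (h : IsSemigroup φ) {δ : ℝ} (hδ : 0 ≤ δ) :
    DifferentiableOn ℂ (fJ φ δ) (ball 0 1) := fun _ hz =>
  (hasDerivAt_fJ h hδ hz).differentiableAt.differentiableWithinAt

/-- for small `δ` the derivative of `fJ φ δ` does not vanish -/
theorem exists_deriv_ne (h : IsSemigroup φ) {z : ℂ} (hz : z ∈ ball (0 : ℂ) 1) :
    ∃ δ : ℝ, 0 < δ ∧ deriv (fJ φ δ) z ≠ 0 := by
  have hc := h.contOn_deriv hz 0 (by simp : (0:ℝ) ∈ Ici 0)
  have hd0 : deriv (φ 0) z = 1 := by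
    have : φ 0 =ᶠ[𝓝 z] id := by
      filter_upwards [isOpen_ball.mem_nhds hz] with x hx using h.zero x hx
    rw [this.deriv_eq]
    simp
  rw [Metric.continuousWithinAt_iff] at hc
  obtain ⟨δ, hδ, hδ2⟩ := hc (1/2) (by norm_num)
  refine ⟨δ / 2, by positivity, ?_⟩
  rw [(hasDerivAt_fJ h (by positivity) hz).deriv]
  intro h0
  have hci : ContinuousOn (fun s => deriv (φ s) z) (uIcc 0 (δ / 2)) := by
    apply (h.contOn_deriv hz).mono
    intro s hs
    rw [uIcc_of_le (by positivity)] at hs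
    exact hs.1
  have h1 : ∫ s in (0:ℝ)..(δ / 2), (deriv (φ s) z - 1) = -((δ / 2 : ℝ) : ℂ) := by
    rw [intervalIntegral.integral_sub hci.intervalIntegrable intervalIntegrable_const, h0]
    simp
  have h2 : ‖∫ s in (0:ℝ)..(δ / 2), (deriv (φ s) z - 1)‖ ≤ 1/2 * |δ / 2 - 0| := by
    apply intervalIntegral.norm_integral_le_of_norm_le_const
    intro s hs
    rw [uIoc_of_le (by positivity)] at hs
    have := hδ2 (x := s) (by exact hs.1.le) (by
      rw [Real.dist_eq, sub_zero, abs_of_pos hs.1]; linarith [hs.2])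
    rw [hd0, dist_eq_norm] at this
    exact this.le
  rw [h1, norm_neg, Complex.norm_real, Real.norm_eq_abs, sub_zero, abs_of_pos (by positivity)] at h2
  linarith

theorem orbit_deriv_aux (h : IsSemigroup φ) {z : ℂ} (hz : z ∈ ball (0 : ℂ) 1) {t0 : ℝ}
    (ht0 : 0 ≤ t0) {δ : ℝ} (hδ : 0 < δ) (hne : deriv (fJ φ δ) (φ t0 z) ≠ 0) :
    HasDerivWithinAt (fun t => φ t z)
      ((deriv (fJ φ δ) (φ t0 z))⁻¹ * (φ δ (φ t0 z) - φ t0 z)) (Ici 0) t0 := by
  set c : ℝ → ℂ := fun t => φ (max t 0) z with hc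
  have hcc : Continuous c := by
    have h1 := h.contOn hz
    have h2 : Continuous (fun t : ℝ => max t 0) := by fun_prop
    exact h1.comp_continuous h2 (fun t => by simp)
  have hce : ∀ t : ℝ, 0 ≤ t → c t = φ t z := fun t ht => by simp only [hc, max_eq_left ht]
  set H : ℝ → ℂ := fun t => ∫ s in (0:ℝ)..t, c s with hH
  have hHd : ∀ t : ℝ, HasDerivAt H (c t) t := fun t =>
    (intervalIntegral.integral_hasDerivAt_right (hcc.intervalIntegrable _ _)
      (hcc.stronglyMeasurableAtFilter _ _) hcc.continuousAt)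
  have hUd : HasDerivAt (fun t => H (t + δ) - H t) (φ δ (φ t0 z) - φ t0 z) t0 := by
    have h1 : HasDerivAt (fun t => H (t + δ)) (c (t0 + δ)) t0 := by
      have := (hHd (t0 + δ)).comp_add_const t0 δ
      exact this
    have h2 := h1.sub (hHd t0)
    rw [hce t0 ht0, hce (t0 + δ) (by positivity), add_comm t0 δ, h.add t0 δ ht0 hδ.le z hz] at h2
    exact h2
  have hUe : ∀ t : ℝ, 0 ≤ t → H (t + δ) - H t = fJ φ δ (φ t z) := by
    intro t ht
    simp only [hH, fJ]
    rw [intervalIntegral.integral_interval_sub_left (hcc.intervalIntegrable _ _)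
      (hcc.intervalIntegrable _ _)]
    have h1 : ∫ s in (0:ℝ)..δ, φ s (φ t z) = ∫ s in (0:ℝ)..δ, c (s + t) := by
      apply intervalIntegral.integral_congr
      intro s hs
      rw [uIcc_of_le hδ.le] at hs
      simp only
      rw [hce _ (by have := hs.1; linarith), h.add t s ht hs.1 z hz]
    rw [h1, intervalIntegral.integral_comp_add_right (fun s => c s) t, zero_add, add_comm δ t]
  -- local inverse
  have hz1 : φ t0 z ∈ ball (0 : ℂ) 1 := h.maps t0 ht0 z hz
  have han : AnalyticAt ℂ (fJ φ δ) (φ t0 z) :=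
    (differentiableOn_fJ h hδ.le).analyticAt (isOpen_ball.mem_nhds hz1)
  have hsd : HasStrictDerivAt (fJ φ δ) (deriv (fJ φ δ) (φ t0 z)) (φ t0 z) := han.hasStrictDerivAt
  have hinv := hsd.to_localInverse hne
  have hleft := hsd.eventually_left_inverse hne
  set g := hsd.localInverse (fJ φ δ) (deriv (fJ φ δ) (φ t0 z)) (φ t0 z) hne with hg
  have hval : H (t0 + δ) - H t0 = fJ φ δ (φ t0 z) := hUe t0 ht0
  have hgd : HasDerivAt (fun t => g (H (t + δ) - H t))
      ((deriv (fJ φ δ) (φ t0 z))⁻¹ * (φ δ (φ t0 z) - φ t0 z)) t0 := by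
    have h1 : HasDerivAt g (deriv (fJ φ δ) (φ t0 z))⁻¹ (H (t0 + δ) - H t0) := by
      rw [hval]; exact hinv.hasDerivAt
    exact h1.comp t0 hUd
  have hev : ∀ᶠ t in 𝓝[Ici 0] t0, g (H (t + δ) - H t) = φ t z := by
    have h1 : ∀ᶠ t in 𝓝[Ici 0] t0, g (fJ φ δ (φ t z)) = φ t z :=
      ((h.contOn hz) t0 ht0).eventually hleft
    filter_upwards [h1, self_mem_nhdsWithin] with t h2 h3
    rw [hUe t h3]; exact h2
  refine (hgd.hasDerivWithinAt (s := Ici 0)).congr_of_eventuallyEq ?_ ?_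
  · filter_upwards [hev] with t ht using ht.symm
  · rw [hval]
    exact hleft.self_of_nhds.symm

/-- the infinitesimal generator -/
noncomputable def fG (φ : ℝ → ℂ → ℂ) (z : ℂ) : ℂ := derivWithin (fun t => φ t z) (Ici 0) 0

theorem fG_eq (h : IsSemigroup φ) {z : ℂ} (hz : z ∈ ball (0 : ℂ) 1) {δ : ℝ} (hδ : 0 < δ)
    (hne : deriv (fJ φ δ) z ≠ 0) :
    fG φ z = (deriv (fJ φ δ) z)⁻¹ * (φ δ z - z) := by
  have h0 := h.zero z hz
  have := orbit_deriv_aux h hz (le_refl (0:ℝ)) hδ (by rw [h0]; exact hne)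
  rw [h0] at this
  exact this.derivWithin (uniqueDiffWithinAt_Ici 0)

theorem orbit_deriv (h : IsSemigroup φ) {z : ℂ} (hz : z ∈ ball (0 : ℂ) 1) {t0 : ℝ}
    (ht0 : 0 ≤ t0) : HasDerivWithinAt (fun t => φ t z) (fG φ (φ t0 z)) (Ici 0) t0 := by
  have hz1 : φ t0 z ∈ ball (0 : ℂ) 1 := h.maps t0 ht0 z hz
  obtain ⟨δ, hδ, hne⟩ := exists_deriv_ne h hz1
  rw [fG_eq h hz1 hδ hne]
  exact orbit_deriv_aux h hz ht0 hδ hne

theorem differentiableOn_fG (h : IsSemigroup φ) : DifferentiableOn ℂ (fG φ) (ball 0 1) := by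
  intro z hz
  obtain ⟨δ, hδ, hne⟩ := exists_deriv_ne h hz
  have hd := differentiableOn_fJ h hδ.le
  have hdd := hd.deriv isOpen_ball
  have hcont : ContinuousAt (deriv (fJ φ δ)) z :=
    (hdd.differentiableAt (isOpen_ball.mem_nhds hz)).continuousAt
  have hev : ∀ᶠ x in 𝓝 z, fG φ x = (deriv (fJ φ δ) x)⁻¹ * (φ δ x - x) := by
    filter_upwards [hcont.eventually_ne hne, isOpen_ball.mem_nhds hz] with x h1 h2
    exact fG_eq h h2 hδ h1
  have h1 : DifferentiableAt ℂ (fun x => (deriv (fJ φ δ) x)⁻¹ * (φ δ x - x)) z := by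
    apply DifferentiableAt.mul
    · exact (hdd.differentiableAt (isOpen_ball.mem_nhds hz)).inv hne
    · exact ((h.holo δ hδ.le).differentiableAt (isOpen_ball.mem_nhds hz)).sub differentiableAt_id
  exact (h1.congr_of_eventuallyEq hev).differentiableWithinAt

end Pool.Agent.NH66.Speed
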