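import Pool.Agent.NH66.Speed.MinPrin

/-!
# The minimum principle on the half plane
-/

set_option autoImplicit false

open Complex Set Filter Topology

namespace Pool.Agent.NH66.Speed

theorem growth_case {q Q : ℂ → ℂ} {δ : ℝ} (hδ : 0 < δ)
    (hq : DifferentiableOn ℂ q {w | -δ < w.re})
    (hQ : ∀ w : ℂ, -δ < w.re → HasDerivAt Q (q w) w) (hQ0 : Q 0 = 0)
    (hre : ∀ w : ℂ, 0 ≤ w.re → 0 ≤ (q w).re) {c : ℂ} (hc : 0 < c.re)
    (hlim : ∀ η : ℝ, 0 < η → ∃ M : ℝ, ∀ w : ℂ, 0 ≤ w.re → M ≤ ‖w‖ → ‖q w - c‖ ≤ η) :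
    ∀ w : ℂ, 0 ≤ w.re → 0 ≤ fA q Q w := by
  set η : ℝ := c.re / 4 with hη
  have hη0 : 0 < η := by positivity
  obtain ⟨M0, hM0⟩ := hlim η hη0
  set M : ℝ := max M0 1 with hM
  have hM1 : 1 ≤ M := le_max_right _ _
  have hMp : 0 < M := by linarith
  have hMb : ∀ w : ℂ, 0 ≤ w.re → M ≤ ‖w‖ → ‖q w - c‖ ≤ η := fun w h1 h2 =>
    hM0 w h1 ((le_max_left _ _).trans h2)
  have hopen : IsOpen {w : ℂ | -δ < w.re} := isOpen_lt continuous_const Complex.continuous_re
  set K : Set ℂ := {w | 0 ≤ w.re} ∩ Metric.closedBall 0 M with hK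
  have hKc : IsCompact K := by
    apply IsCompact.inter_left
    · exact isCompact_closedBall _ _
    · exact isClosed_le continuous_const Complex.continuous_re
  have hKconv : Convex ℝ K := by
    apply Convex.inter _ (convex_closedBall _ _)
    exact convex_halfSpace_re_ge 0
  have hsub : ∀ w : ℂ, 0 ≤ w.re → -δ < w.re := fun w hw => by linarith
  have hKre : ∀ w ∈ K, 0 ≤ w.re := fun w hw => by
    have := hw.1
    simpa only [Set.mem_ofPred_eq] using this
  have hcont : ContinuousOn (fun w => q w - c) K := by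
    apply ContinuousOn.sub _ continuousOn_const
    intro w hw
    exact ((hq.differentiableAt (hopen.mem_nhds (hsub w (hKre w hw)))).continuousAt).continuousWithinAt
  obtain ⟨C, hC⟩ := hKc.exists_bound_of_continuousOn hcont
  have hC0 : 0 ≤ C := (norm_nonneg _).trans (hC 0 ⟨by simp, by simpa using hMp.le⟩)
  have hder : ∀ w : ℂ, -δ < w.re → HasDerivAt (fun z => Q z - c * z) (q w - c) w := by
    intro w hw
    exact ((hQ w hw).sub ((hasDerivAt_id w).const_mul c)).congr_deriv (by simp)
  -- the estimate for Q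
  have hQest : ∀ w : ℂ, 0 ≤ w.re → M ≤ ‖w‖ → ‖Q w - c * w‖ ≤ C * M + η * ‖w‖ := by
    intro w hw hwM
    have hwp : 0 < ‖w‖ := by linarith
    set t : ℝ := M / ‖w‖ with ht
    have ht0 : 0 < t := by positivity
    have ht1 : t ≤ 1 := by rw [ht, div_le_one hwp]; exact hwM
    set z : ℂ := (t : ℂ) * w with hz
    have hzn : ‖z‖ = M := by
      rw [hz, norm_mul, Complex.norm_real, Real.norm_of_nonneg ht0.le, ht]
      field_simp
    have hzre : 0 ≤ z.re := by
      rw [hz]; simp; positivity
    have h1 : ‖(Q z - c * z) - (Q 0 - c * 0)‖ ≤ C * ‖z - 0‖ := by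
      apply Convex.norm_image_sub_le_of_norm_hasDerivWithin_le (s := K)
        (f := fun z => Q z - c * z) (f' := fun w => q w - c)
      · intro x hx
        exact (hder x (hsub x (hKre x hx))).hasDerivWithinAt
      · exact hC
      · exact hKconv
      · exact ⟨by simp, by simpa using hMp.le⟩
      · exact ⟨by simpa only [Set.mem_ofPred_eq] using hzre, by simp [hzn]⟩
    have hseg : ∀ x ∈ segment ℝ z w, 0 ≤ x.re ∧ M ≤ ‖x‖ := by
      intro x hx
      obtain ⟨a, b, ha, hb, hab, rfl⟩ := hx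
      have he : a • z + b • w = ((a * t + b : ℝ) : ℂ) * w := by
        rw [hz]; simp only [Complex.real_smul]; push_cast; ring
      have hs0 : t ≤ a * t + b := by nlinarith
      rw [he]
      constructor
      · simp only [Complex.re_ofReal_mul]; exact mul_nonneg (by linarith) hw
      · rw [norm_mul, Complex.norm_real, Real.norm_of_nonneg (by linarith)]
        calc M = t * ‖w‖ := by rw [ht]; field_simp
          _ ≤ _ := by gcongr
    have h2 : ‖(Q w - c * w) - (Q z - c * z)‖ ≤ η * ‖w - z‖ := by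
      apply Convex.norm_image_sub_le_of_norm_hasDerivWithin_le (s := segment ℝ z w)
        (f := fun z => Q z - c * z) (f' := fun w => q w - c)
      · intro x hx
        exact (hder x (hsub x (hseg x hx).1)).hasDerivWithinAt
      · intro x hx
        exact hMb x (hseg x hx).1 (hseg x hx).2
      · exact convex_segment _ _
      · exact left_mem_segment _ _ _
      · exact right_mem_segment _ _ _
    have h3 : ‖w - z‖ ≤ ‖w‖ := by
      have : w - z = ((1 - t : ℝ) : ℂ) * w := by rw [hz]; push_cast; ring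
      rw [this, norm_mul, Complex.norm_real, Real.norm_of_nonneg (by linarith)]
      nlinarith
    rw [hQ0] at h1
    simp only [mul_zero, sub_zero, hzn] at h1
    calc ‖Q w - c * w‖ = ‖((Q w - c * w) - (Q z - c * z)) + (Q z - c * z)‖ := by congr 1; ring
      _ ≤ ‖(Q w - c * w) - (Q z - c * z)‖ + ‖Q z - c * z‖ := norm_add_le _ _
      _ ≤ η * ‖w - z‖ + C * M := add_le_add h2 h1
      _ ≤ η * ‖w‖ + C * M := by gcongr
      _ = _ := by ring
  set R0 : ℝ := max M (C * M / η) with hR0
  have harc : ∀ w : ℂ, 0 ≤ w.re → R0 ≤ ‖w‖ → 0 < fA q Q w := by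
    intro w hw hwR
    have hwM : M ≤ ‖w‖ := (le_max_left _ _).trans hwR
    have hwp : 0 < ‖w‖ := by linarith
    have h1 := hMb w hw hwM
    have h2 : ‖Q w - c * w‖ ≤ 2 * η * ‖w‖ := by
      have h3 : C * M ≤ η * ‖w‖ := by
        have : C * M / η ≤ ‖w‖ := (le_max_right _ _).trans hwR
        rw [div_le_iff₀ hη0] at this
        linarith
      linarith [hQest w hw hwM]
    have e0 : fA q Q w = c.re * (w.re ^ 2 + w.im ^ 2) + w.re * (w * (q w - c)).re
        + w.im * (Q w - c * w).im := by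
      simp only [fA, Complex.mul_re, Complex.mul_im, Complex.sub_re, Complex.sub_im]
      ring
    have e1 : w.re ^ 2 + w.im ^ 2 = ‖w‖ ^ 2 := by
      rw [← Complex.normSq_eq_norm_sq, Complex.normSq_apply]; ring
    have e2 : |w.re * (w * (q w - c)).re| ≤ ‖w‖ * (‖w‖ * η) := by
      rw [abs_mul]
      apply mul_le_mul (Complex.abs_re_le_norm w) _ (abs_nonneg _) hwp.le
      refine (Complex.abs_re_le_norm _).trans ?_
      rw [norm_mul]
      gcongr
    have e3 : |w.im * (Q w - c * w).im| ≤ ‖w‖ * (2 * η * ‖w‖) := by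
      rw [abs_mul]
      apply mul_le_mul (Complex.abs_im_le_norm w) _ (abs_nonneg _) hwp.le
      exact (Complex.abs_im_le_norm _).trans h2
    rw [e0, e1]
    have e4 := neg_abs_le (w.re * (w * (q w - c)).re)
    have e5 := neg_abs_le (w.im * (Q w - c * w).im)
    have e6 : c.re = 4 * η := by rw [hη]; ring
    rw [e6]
    have e7 : 0 < η * ‖w‖ ^ 2 := by positivity
    nlinarith
  intro w hw
  refine bounded_case hδ hq hQ hQ0 hre (R := max R0 ‖w‖) ?_ w hw (le_max_right _ _)
  intro z hz hzR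
  exact harc z hz (by rw [hzR]; exact le_max_left _ _)

end Pool.Agent.NH66.Speed
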