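import Pool.Agent.NH66.Speed.Wolff

/-!
# The half plane model
-/

set_option autoImplicit false

open Complex Set Filter Topology Metric

namespace Pool.Agent.NH66.Speed

variable {φ : ℝ → ℂ → ℂ} {τ : ℂ}

/-- the Cayley map -/
noncomputable def cay (z : ℂ) : ℂ := (1 + z) / (1 - z)

theorem one_sub_ne {z : ℂ} (hz : z ∈ ball (0 : ℂ) 1) : (1 : ℂ) - z ≠ 0 := by
  intro h
  have : z = 1 := (sub_eq_zero.mp h).symm
  rw [this] at hz; simp at hz

theorem cay_re (z : ℂ) :
    (cay z).re = (1 - ‖z‖ ^ 2) / ‖1 - z‖ ^ 2 := by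
  rw [cay, Complex.div_re, ← add_div, ← Complex.normSq_eq_norm_sq, ← Complex.normSq_eq_norm_sq,
    Complex.normSq_apply z]
  congr 1
  simp
  ring

theorem cay_re_pos {z : ℂ} (hz : z ∈ ball (0 : ℂ) 1) : 0 < (cay z).re := by
  rw [cay_re z]
  have h1 := norm_pos_iff.mpr (one_sub_ne hz)
  rw [mem_ball_zero_iff] at hz
  apply div_pos _ (by positivity)
  nlinarith [norm_nonneg z]

theorem cay_inv {z : ℂ} (hz : z ∈ ball (0 : ℂ) 1) : (cay z - 1) / (cay z + 1) = z := by
  have h1 := one_sub_ne hz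
  rw [cay]
  field_simp
  ring

theorem inv_mem {w : ℂ} (hw : 0 < w.re) : (w - 1) / (w + 1) ∈ ball (0 : ℂ) 1 := by
  have h1 : w + 1 ≠ 0 := by
    intro h
    have := congrArg Complex.re h
    simp at this
    linarith
  rw [mem_ball_zero_iff, norm_div, div_lt_one (norm_pos_iff.mpr h1)]
  apply lt_of_pow_lt_pow_left₀ 2 (norm_nonneg _)
  rw [← Complex.normSq_eq_norm_sq, ← Complex.normSq_eq_norm_sq, Complex.normSq_apply,
    Complex.normSq_apply]
  simp
  nlinarith

theorem cay_of_inv {w : ℂ} (hw : 0 < w.re) : cay ((w - 1) / (w + 1)) = w := by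
  have h1 : w + 1 ≠ 0 := by
    intro h
    have := congrArg Complex.re h
    simp at this
    linarith
  rw [cay]
  have e1 : (1 : ℂ) - (w - 1) / (w + 1) = 2 / (w + 1) := by field_simp; ring
  have e2 : (1 : ℂ) + (w - 1) / (w + 1) = 2 * w / (w + 1) := by field_simp; ring
  rw [e1, e2]
  field_simp

theorem conj_mul_mem (hτ : ‖τ‖ = 1) {z : ℂ} (hz : z ∈ ball (0 : ℂ) 1) :
    (starRingEnd ℂ) τ * z ∈ ball (0 : ℂ) 1 := by
  rw [mem_ball_zero_iff] at hz ⊢
  rw [norm_mul, RCLike.norm_conj, hτ, one_mul]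
  exact hz

theorem mul_mem (hτ : ‖τ‖ = 1) {z : ℂ} (hz : z ∈ ball (0 : ℂ) 1) :
    τ * z ∈ ball (0 : ℂ) 1 := by
  rw [mem_ball_zero_iff] at hz ⊢
  rw [norm_mul, hτ, one_mul]
  exact hz

theorem tau_conj (hτ : ‖τ‖ = 1) : τ * (starRingEnd ℂ) τ = 1 := by
  rw [Complex.mul_conj, Complex.normSq_eq_norm_sq, hτ]; simp

/-- the orbit in the half plane -/
noncomputable def orb (φ : ℝ → ℂ → ℂ) (τ z : ℂ) (t : ℝ) : ℂ := cay ((starRingEnd ℂ) τ * φ t z)

/-- the generator in the half plane -/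
noncomputable def pG (φ : ℝ → ℂ → ℂ) (τ w : ℂ) : ℂ :=
  (w + 1) ^ 2 / 2 * ((starRingEnd ℂ) τ * fG φ (τ * ((w - 1) / (w + 1))))

theorem orb_re_pos (h : IsSemigroup φ) (hτ : ‖τ‖ = 1) {z : ℂ} (hz : z ∈ ball (0 : ℂ) 1) {t : ℝ}
    (ht : 0 ≤ t) : 0 < (orb φ τ z t).re := cay_re_pos (conj_mul_mem hτ (h.maps t ht z hz))

theorem orb_deriv (h : IsSemigroup φ) (hτ : ‖τ‖ = 1) {z : ℂ} (hz : z ∈ ball (0 : ℂ) 1) {t : ℝ}
    (ht : 0 ≤ t) : HasDerivWithinAt (orb φ τ z) (pG φ τ (orb φ τ z t)) (Ici 0) t := by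
  have hm := conj_mul_mem hτ (h.maps t ht z hz)
  have h1 := one_sub_ne hm
  have hc : HasDerivAt cay (2 / (1 - (starRingEnd ℂ) τ * φ t z) ^ 2)
      ((starRingEnd ℂ) τ * φ t z) := by
    have ha : HasDerivAt (fun w : ℂ => 1 + w) 1 ((starRingEnd ℂ) τ * φ t z) :=
      (hasDerivAt_id _).const_add _
    have hb : HasDerivAt (fun w : ℂ => 1 - w) (-1) ((starRingEnd ℂ) τ * φ t z) :=
      (hasDerivAt_id _).const_sub _
    refine (ha.div hb h1).congr_deriv ?_
    congr 1
    ring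
  have hd := (orbit_deriv h hz ht).const_mul ((starRingEnd ℂ) τ)
  have := hc.comp_hasDerivWithinAt t hd
  refine this.congr_deriv ?_
  rw [pG, orb, cay_inv hm, ← mul_assoc τ, tau_conj hτ, one_mul]
  have e1 : cay ((starRingEnd ℂ) τ * φ t z) + 1 = 2 / (1 - (starRingEnd ℂ) τ * φ t z) := by
    rw [cay]; field_simp; ring
  rw [e1]
  field_simp

theorem orb_zero (h : IsSemigroup φ) (hτ : ‖τ‖ = 1) {w : ℂ} (hw : 0 < w.re) :
    orb φ τ (τ * ((w - 1) / (w + 1))) 0 = w := by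
  have h1 := inv_mem hw
  rw [orb, h.zero _ (mul_mem hτ h1), ← mul_assoc, mul_comm _ τ, tau_conj hτ, one_mul,
    cay_of_inv hw]

theorem orb_re_ge (h : IsSemigroup φ) (hdw : IsDenjoyWolff φ τ) {z : ℂ}
    (hz : z ∈ ball (0 : ℂ) 1) {t : ℝ} (ht : 0 ≤ t) :
    (orb φ τ z 0).re ≤ (orb φ τ z t).re := by
  have hj := julia h hdw ht hz
  have hτ := hdw.1
  have hm := conj_mul_mem hτ (h.maps t ht z hz)
  have hm0 := conj_mul_mem hτ hz
  rw [orb, orb, h.zero z hz, cay_re, cay_re, norm_mul, norm_mul, RCLike.norm_conj, hτ,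
    one_mul, one_mul]
  have h1 := norm_pos_iff.mpr (one_sub_ne hm)
  have h2 := norm_pos_iff.mpr (one_sub_ne hm0)
  rw [div_le_div_iff₀ (by positivity) (by positivity)]
  linarith

theorem pG_diff (h : IsSemigroup φ) (hτ : ‖τ‖ = 1) :
    DifferentiableOn ℂ (pG φ τ) {w | 0 < w.re} := by
  intro w hw
  simp only [Set.mem_ofPred_eq] at hw
  have h1 : w + 1 ≠ 0 := by
    intro h
    have := congrArg Complex.re h
    simp at this
    linarith
  have hin := mul_mem hτ (inv_mem hw)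
  have hG : DifferentiableAt ℂ (fG φ) (τ * ((w - 1) / (w + 1))) :=
    (differentiableOn_fG h).differentiableAt (isOpen_ball.mem_nhds hin)
  have hi : DifferentiableAt ℂ (fun w : ℂ => τ * ((w - 1) / (w + 1))) w := by
    have ha : DifferentiableAt ℂ (fun w : ℂ => w - 1) w := by fun_prop
    have hb : DifferentiableAt ℂ (fun w : ℂ => w + 1) w := by fun_prop
    exact (ha.div hb h1).const_mul τ
  have hc : DifferentiableAt ℂ (fun w : ℂ => fG φ (τ * ((w - 1) / (w + 1)))) w :=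
    DifferentiableAt.comp (g := fG φ) (f := fun w : ℂ => τ * ((w - 1) / (w + 1))) w hG hi
  have hd : DifferentiableAt ℂ (fun w : ℂ => (w + 1) ^ 2 / 2) w := by fun_prop
  exact (hd.mul (hc.const_mul _)).differentiableWithinAt

theorem pG_re (h : IsSemigroup φ) (hdw : IsDenjoyWolff φ τ) {w : ℂ} (hw : 0 < w.re) :
    0 ≤ (pG φ τ w).re := by
  have hτ := hdw.1
  set z : ℂ := τ * ((w - 1) / (w + 1)) with hz
  have hzb : z ∈ ball (0 : ℂ) 1 := mul_mem hτ (inv_mem hw)
  have hd := orb_deriv h hτ hzb (le_refl 0)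
  rw [orb_zero h hτ hw] at hd
  have hd2 : HasDerivWithinAt (fun t => (orb φ τ z t).re) (pG φ τ w).re (Ici 0) 0 :=
    (Complex.reCLM.hasFDerivAt.comp_hasDerivWithinAt 0 hd)
  have hs := hasDerivWithinAt_iff_tendsto_slope.mp hd2
  have : ∀ᶠ t in 𝓝[Ici 0 \ {0}] (0:ℝ), 0 ≤ slope (fun t => (orb φ τ z t).re) 0 t := by
    filter_upwards [self_mem_nhdsWithin] with t ht
    have ht0 : 0 ≤ t := ht.1
    rw [slope_def_field]
    apply div_nonneg
    · linarith [orb_re_ge h hdw hzb ht0]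
    · linarith
  have hne : (𝓝[Ici 0 \ {0}] (0:ℝ)).NeBot := by
    rw [Ici_sdiff_left]
    infer_instance
  exact ge_of_tendsto hs this

theorem fG_ne (h : IsSemigroup φ) (hdw : IsDenjoyWolff φ τ) {z : ℂ} (hz : z ∈ ball (0 : ℂ) 1) :
    fG φ z ≠ 0 := by
  intro h0
  -- the orbit is constant
  have hder : ∀ t : ℝ, 0 ≤ t → HasDerivWithinAt (fun s => φ s z) 0 (Ici 0) t := by
    intro t ht
    have h1 := orbit_deriv h hz ht
    -- derivative from the right computed through `φ t`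
    have h2 : HasDerivWithinAt (fun s => φ s z) 0 (Ici 0) 0 := by
      have := orbit_deriv h hz (le_refl 0)
      rwa [h.zero z hz, h0] at this
    have h3 : HasDerivAt (φ t) (deriv (φ t) z) (φ 0 z) := by
      rw [h.zero z hz]
      exact ((h.holo t ht).differentiableAt (isOpen_ball.mem_nhds hz)).hasDerivAt
    have h4 := h3.comp_hasDerivWithinAt (0:ℝ) h2
    rw [mul_zero] at h4
    -- the same function, shifted
    have h5 : HasDerivWithinAt (fun s => φ (t + s) z) (fG φ (φ t z)) (Ici 0) 0 := by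
      have h6 : HasDerivWithinAt (fun s : ℝ => φ s z) (fG φ (φ t z)) (Ici 0) (t + 0) := by
        rw [add_zero]; exact h1
      have h7 : HasDerivWithinAt (fun s : ℝ => t + s) 1 (Ici 0) 0 :=
        ((hasDerivAt_id (0:ℝ)).const_add t).hasDerivWithinAt
      have h8 := h6.scomp (0:ℝ) h7 (fun s hs => by
        simp only [mem_Ici] at hs ⊢
        linarith)
      rw [one_smul] at h8
      exact h8
    have h9 : HasDerivWithinAt (fun s => φ (t + s) z) 0 (Ici 0) 0 := by
      refine h4.congr_of_eventuallyEq ?_ ?_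
      · filter_upwards [self_mem_nhdsWithin] with s hs
        have hs0 : 0 ≤ s := hs
        show φ (t + s) z = φ t (φ s z)
        exact h.add s t hs0 ht z hz
      · show φ (t + 0) z = φ t (φ 0 z)
        rw [add_zero, h.zero z hz]
    have h10 : fG φ (φ t z) = 0 := (uniqueDiffWithinAt_Ici (0:ℝ)).eq_deriv _ h5 h9
    rw [h10] at h1
    exact h1
  have hconst : ∀ t : ℝ, 0 ≤ t → φ t z = z := by
    intro t ht
    have := Convex.norm_image_sub_le_of_norm_hasDerivWithin_le (s := Ici (0:ℝ))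
      (f := fun s => φ s z) (f' := fun _ => 0) (C := 0) (x := 0) (y := t)
      (fun x hx => hder x hx) (fun x _ => by simp) (convex_Ici 0) (by simp) ht
    simp only [zero_mul, norm_le_zero_iff] at this
    rw [h.zero z hz] at this
    exact sub_eq_zero.mp this
  have h1 := hdw.2 z hz
  have h2 : Tendsto (fun t => φ t z) atTop (𝓝 z) := by
    refine tendsto_const_nhds.congr' ?_
    filter_upwards [eventually_ge_atTop (0:ℝ)] with t ht using (hconst t ht).symm
  have h3 := tendsto_nhds_unique h1 h2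
  rw [← h3, mem_ball_zero_iff, hdw.1] at hz
  exact lt_irrefl _ hz

theorem pG_ne (h : IsSemigroup φ) (hdw : IsDenjoyWolff φ τ) {w : ℂ} (hw : 0 < w.re) :
    pG φ τ w ≠ 0 := by
  have hτ := hdw.1
  have h1 : w + 1 ≠ 0 := by
    intro h
    have := congrArg Complex.re h
    simp at this
    linarith
  have h2 : (starRingEnd ℂ) τ ≠ 0 := by
    intro h0
    have := tau_conj hτ
    rw [h0, mul_zero] at this
    exact zero_ne_one this
  rw [pG]
  apply mul_ne_zero
  · exact div_ne_zero (pow_ne_zero 2 h1) two_ne_zero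
  · exact mul_ne_zero h2 (fG_ne h hdw (mul_mem hτ (inv_mem hw)))

end Pool.Agent.NH66.Speed
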