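import Pool.Agent.NH66.Speed.Growth

/-!
# The key inequality for holomorphic functions with positive real part
-/

set_option autoImplicit false

open Complex Set Filter Topology Metric

namespace Pool.Agent.NH66.Speed

/-- primitives on half planes -/
theorem exists_primitive {q : ℂ → ℂ} {δ : ℝ} (hq : DifferentiableOn ℂ q {w | -δ < w.re}) :
    ∃ Q : ℂ → ℂ, Q 0 = 0 ∧ ∀ w : ℂ, -δ < w.re → HasDerivAt Q (q w) w := by
  set F : ℂ → ℂ := fun z => q ((1 + z) / (1 - z) - δ) * (2 / (1 - z) ^ 2) with hF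
  have hne : ∀ z ∈ ball (0 : ℂ) 1, (1 - z) ≠ 0 := by
    intro z hz h
    have : z = 1 := (sub_eq_zero.mp h).symm
    rw [this] at hz; simp at hz
  have hmaps : ∀ z ∈ ball (0 : ℂ) 1, (0 : ℝ) < ((1 + z) / (1 - z)).re := by
    intro z hz
    have hz1 : ‖z‖ < 1 := by simpa using hz
    have h2 : normSq z < 1 := by
      rw [Complex.normSq_eq_norm_sq]; nlinarith [norm_nonneg z]
    have h3 : 0 < normSq (1 - z) := Complex.normSq_pos.mpr (hne z hz)
    rw [Complex.div_re, ← add_div]
    apply div_pos _ h3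
    rw [Complex.normSq_apply] at h2
    simp
    nlinarith
  have hFd : DifferentiableOn ℂ F (ball 0 1) := by
    intro z hz
    have h0 := hne z hz
    have hopen : IsOpen {w : ℂ | -δ < w.re} := isOpen_lt continuous_const Complex.continuous_re
    apply DifferentiableAt.differentiableWithinAt
    apply DifferentiableAt.mul
    · apply DifferentiableAt.comp z (g := q) (f := fun z : ℂ => (1 + z) / (1 - z) - (δ : ℂ))
      · apply hq.differentiableAt (hopen.mem_nhds _)
        have := hmaps z hz
        simp only [Set.mem_ofPred_eq, Complex.sub_re, Complex.ofReal_re]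
        linarith
      · apply DifferentiableAt.sub_const
        apply DifferentiableAt.div (by fun_prop) (by fun_prop) h0
    · have h9 : DifferentiableAt ℂ (fun z : ℂ => (1 - z) ^ 2) z := by fun_prop
      exact (differentiableAt_const (2 : ℂ)).div h9 (pow_ne_zero 2 h0)
  obtain ⟨G, hG⟩ := hFd.isExactOn_ball
  refine ⟨fun w => G ((w + δ - 1) / (w + δ + 1)) - G ((0 + δ - 1) / (0 + δ + 1)), by simp, ?_⟩
  intro w hw
  have h1 : w + δ + 1 ≠ 0 := by
    intro h
    have := congrArg Complex.re h
    simp at this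
    linarith
  have hb : (w + δ - 1) / (w + δ + 1) ∈ ball (0 : ℂ) 1 := by
    rw [mem_ball_zero_iff, norm_div, div_lt_one (norm_pos_iff.mpr h1)]
    apply lt_of_pow_lt_pow_left₀ 2 (norm_nonneg _)
    rw [← Complex.normSq_eq_norm_sq, ← Complex.normSq_eq_norm_sq, Complex.normSq_apply,
      Complex.normSq_apply]
    simp
    nlinarith
  have h2 : HasDerivAt (fun w : ℂ => (w + δ - 1) / (w + δ + 1)) (2 / (w + δ + 1) ^ 2) w := by
    have ha : HasDerivAt (fun w : ℂ => w + δ - 1) 1 w := ((hasDerivAt_id w).add_const _).sub_const _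
    have hb : HasDerivAt (fun w : ℂ => w + δ + 1) 1 w := ((hasDerivAt_id w).add_const _).add_const _
    refine (ha.div hb h1).congr_deriv ?_
    congr 1
    ring
  have h3 := (hG _ hb).comp w h2
  have h4 := h3.sub_const (G ((0 + δ - 1) / (0 + δ + 1)))
  refine h4.congr_deriv ?_
  simp only [hF]
  have h5 : (1 : ℂ) - (w + δ - 1) / (w + δ + 1) = 2 / (w + δ + 1) := by
    field_simp; ring
  have h6 : (1 : ℂ) + (w + δ - 1) / (w + δ + 1) = 2 * (w + δ) / (w + δ + 1) := by
    field_simp; ring
  rw [h5, h6]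
  have h7 : 2 * (w + δ) / (w + δ + 1) / (2 / (w + δ + 1)) - (δ : ℂ) = w := by
    field_simp; ring
  rw [h7]
  field_simp

/-- the compression of the half plane -/
noncomputable def fT (n : ℝ) (w : ℂ) : ℂ := n * w / (n + w)

theorem fT_ne {n : ℝ} {w : ℂ} (h : -n < w.re) : (n : ℂ) + w ≠ 0 := by
  intro h0
  have := congrArg Complex.re h0
  simp at this
  linarith

theorem fT_re {n : ℝ} (hn : 0 < n) {w : ℂ} (h : -n < w.re) :
    n * w.re / (n + w.re) ≤ (fT n w).re := by
  have h0 := fT_ne h
  have hp : 0 < n + w.re := by linarith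
  have e1 : fT n w = n - n ^ 2 / (n + w) := by
    rw [fT]; field_simp; ring
  have hN : 0 < normSq ((n : ℂ) + w) := Complex.normSq_pos.mpr h0
  have e2 : ((n : ℂ) ^ 2 / (n + w)).re = n ^ 2 * (n + w.re) / normSq ((n : ℂ) + w) := by
    have : ((n : ℂ) ^ 2) = ((n ^ 2 : ℝ) : ℂ) := by push_cast; ring
    rw [this, Complex.div_re]
    simp only [Complex.ofReal_re, Complex.ofReal_im, Complex.add_re, zero_mul, zero_div, add_zero]
  rw [e1, Complex.sub_re, e2, Complex.ofReal_re]
  have e3 : n ^ 2 * (n + w.re) / normSq ((n : ℂ) + w) ≤ n ^ 2 / (n + w.re) := by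
    rw [div_le_div_iff₀ hN hp]
    have : (n + w.re) * (n + w.re) ≤ normSq ((n : ℂ) + w) := by
      rw [Complex.normSq_apply]
      simp
      nlinarith [sq_nonneg w.im]
    nlinarith [sq_nonneg n]
  have e4 : n * w.re / (n + w.re) = n - n ^ 2 / (n + w.re) := by
    field_simp; ring
  rw [e4]
  linarith

theorem norm_add_ge {n : ℝ} (hn : 0 < n) {w : ℂ} (h : 0 ≤ w.re) :
    n ≤ ‖(n : ℂ) + w‖ ∧ ‖w‖ ≤ ‖(n : ℂ) + w‖ := by
  constructor
  · calc n ≤ ((n : ℂ) + w).re := by simp [h]
      _ ≤ _ := Complex.re_le_norm _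
  · apply le_of_pow_le_pow_left₀ (n := 2) (by norm_num) (norm_nonneg _)
    rw [← Complex.normSq_eq_norm_sq, ← Complex.normSq_eq_norm_sq, Complex.normSq_apply,
      Complex.normSq_apply]
    simp
    nlinarith

theorem key {q Q : ℂ → ℂ} {δ : ℝ} (hδ : 0 < δ)
    (hq : DifferentiableOn ℂ q {w | -δ < w.re})
    (hQ : ∀ w : ℂ, -δ < w.re → HasDerivAt Q (q w) w) (hQ0 : Q 0 = 0)
    (hre : ∀ w : ℂ, -δ < w.re → 0 < (q w).re) :
    ∀ w : ℂ, 0 ≤ w.re → 0 ≤ fA q Q w := by
  intro w hw
  have hopen : IsOpen {w : ℂ | -δ < w.re} := isOpen_lt continuous_const Complex.continuous_re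
  have dq : ∀ w : ℂ, -δ < w.re → DifferentiableAt ℂ q w := fun w hw =>
    (hq.differentiableAt (hopen.mem_nhds hw))
  -- step 1: the approximants
  have hstep : ∀ n : ℝ, 0 < n → ∃ Qn : ℂ → ℂ, Qn 0 = 0 ∧
      (∀ z : ℂ, 0 ≤ z.re → HasDerivAt Qn (q (fT n z)) z) ∧
      ∀ z : ℂ, 0 ≤ z.re → 0 ≤ fA (fun z => q (fT n z)) Qn z := by
    intro n hn
    set δ' : ℝ := min (n / 2) (δ / 2) with hδ'
    have hδ'0 : 0 < δ' := lt_min (by positivity) (by positivity)
    have hδ'1 : δ' ≤ n / 2 := min_le_left _ _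
    have hδ'2 : δ' ≤ δ / 2 := min_le_right _ _
    have hTre : ∀ z : ℂ, -δ' < z.re → -δ < (fT n z).re := by
      intro z hz
      refine lt_of_lt_of_le ?_ (fT_re hn (by linarith))
      have hp : 0 < n + z.re := by linarith
      rw [lt_div_iff₀ hp]
      rcases le_total 0 z.re with h | h
      · have : 0 ≤ n * z.re := by positivity
        have : 0 < δ * (n + z.re) := by positivity
        linarith
      · nlinarith
    have hTd : ∀ z : ℂ, -δ' < z.re → DifferentiableAt ℂ (fT n) z := by
      intro z hz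
      have h0 : (n : ℂ) + z ≠ 0 := fT_ne (by linarith)
      have h1 : DifferentiableAt ℂ (fun z : ℂ => (n : ℂ) * z) z := by fun_prop
      have h2 : DifferentiableAt ℂ (fun z : ℂ => (n : ℂ) + z) z := by fun_prop
      exact h1.div h2 h0
    have hqn : DifferentiableOn ℂ (fun z => q (fT n z)) {w | -δ' < w.re} := by
      intro z hz
      simp only [Set.mem_ofPred_eq] at hz
      exact ((dq _ (hTre z hz)).comp z (hTd z hz)).differentiableWithinAt
    obtain ⟨Qn, hQn0, hQn⟩ := exists_primitive hqn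
    refine ⟨Qn, hQn0, fun z hz => hQn z (by linarith), ?_⟩
    refine growth_case hδ'0 hqn hQn hQn0 ?_ (c := q n) (hre _ (by simp; linarith)) ?_
    · intro z hz
      exact (hre _ (hTre z (by linarith))).le
    · intro η hη
      have hcq : ContinuousAt q (n : ℂ) := (dq _ (by simp; linarith)).continuousAt
      rw [Metric.continuousAt_iff] at hcq
      obtain ⟨ρ, hρ, hρ2⟩ := hcq η hη
      refine ⟨n ^ 2 / ρ + 1, ?_⟩
      intro z hz hzn
      have hzp : 0 < ‖z‖ := by
        have : 0 < n ^ 2 / ρ := by positivity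
        linarith
      have h1 : fT n z - n = -(n ^ 2 / (n + z)) := by
        have h0 : (n : ℂ) + z ≠ 0 := fT_ne (by linarith)
        rw [fT]; field_simp; ring
      have h2 : dist (fT n z) n < ρ := by
        rw [dist_eq_norm, h1, norm_neg, norm_div, norm_pow, Complex.norm_real,
          Real.norm_of_nonneg hn.le]
        have h3 : 0 < ‖(n : ℂ) + z‖ := lt_of_lt_of_le hn (norm_add_ge hn hz).1
        rw [div_lt_iff₀ h3]
        have h4 : n ^ 2 / ρ < ‖(n : ℂ) + z‖ := by
          have := (norm_add_ge hn hz).2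
          linarith
        rw [div_lt_iff₀ hρ] at h4
        linarith
      have := hρ2 h2
      rw [dist_eq_norm] at this
      exact this.le
  -- step 2: uniform continuity
  have hmain : ∀ ε : ℝ, 0 < ε → -(2 * ‖w‖ ^ 2 * ε) ≤ fA q Q w := by
    intro ε hε
    set K : Set ℂ := {w | 0 ≤ w.re} ∩ Metric.closedBall 0 ‖w‖ with hK
    have hKc : IsCompact K := by
      apply IsCompact.inter_left
      · exact isCompact_closedBall _ _
      · exact isClosed_le continuous_const Complex.continuous_re
    have hKre : ∀ w ∈ K, 0 ≤ w.re := fun w hw => by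
      have := hw.1
      simpa only [Set.mem_ofPred_eq] using this
    have hcK : ContinuousOn q K := fun z hz =>
      (dq z (by have := hKre z hz; linarith)).continuousAt.continuousWithinAt
    have huc := hKc.uniformContinuousOn_of_continuous hcK
    rw [Metric.uniformContinuousOn_iff] at huc
    obtain ⟨ρ, hρ, hρ2⟩ := huc ε hε
    set n : ℝ := ‖w‖ ^ 2 / ρ + 1 with hn
    have hn0 : 0 < n := by positivity
    obtain ⟨Qn, hQn0, hQn, hpos⟩ := hstep n hn0
    have hseg : ∀ x ∈ segment ℝ 0 w, 0 ≤ x.re ∧ ‖x‖ ≤ ‖w‖ := by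
      intro x hx
      obtain ⟨a, b, ha, hb, hab, rfl⟩ := hx
      have hb1 : b ≤ 1 := by linarith
      simp only [smul_zero, zero_add, Complex.real_smul]
      constructor
      · simp only [Complex.re_ofReal_mul]; exact mul_nonneg hb hw
      · rw [norm_mul, Complex.norm_real, Real.norm_of_nonneg hb]
        nlinarith [norm_nonneg w]
    have hclose : ∀ x ∈ segment ℝ 0 w, ‖q (fT n x) - q x‖ ≤ ε := by
      intro x hx
      obtain ⟨hx1, hx2⟩ := hseg x hx
      have h0 : (n : ℂ) + x ≠ 0 := fT_ne (by linarith)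
      have h3 := (norm_add_ge hn0 hx1).1
      have h3' : 0 < ‖(n : ℂ) + x‖ := by linarith
      have hTn : ‖fT n x‖ ≤ ‖x‖ := by
        rw [fT, norm_div, norm_mul, Complex.norm_real, Real.norm_of_nonneg hn0.le,
          div_le_iff₀ h3']
        nlinarith [norm_nonneg x]
      have hTre : 0 ≤ (fT n x).re := by
        refine le_trans ?_ (fT_re hn0 (by linarith))
        positivity
      have hd : dist (fT n x) x < ρ := by
        have e1 : fT n x - x = -(x ^ 2 / (n + x)) := by
          rw [fT]; field_simp; ring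
        rw [dist_eq_norm, e1, norm_neg, norm_div, norm_pow, div_lt_iff₀ h3']
        have h5 : ‖w‖ ^ 2 / ρ < n := by rw [hn]; linarith
        rw [div_lt_iff₀ hρ] at h5
        have h6 : ‖x‖ ^ 2 ≤ ‖w‖ ^ 2 := by gcongr
        nlinarith
      have := hρ2 (fT n x) ⟨by simpa only [Set.mem_ofPred_eq] using hTre,
        by simpa using hTn.trans hx2⟩ x ⟨by simpa only [Set.mem_ofPred_eq] using hx1,
        by simpa using hx2⟩ hd
      rw [dist_eq_norm] at this
      exact this.le
    have hder : ∀ x : ℂ, 0 ≤ x.re → HasDerivAt (fun z => Qn z - Q z) (q (fT n x) - q x) x :=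
      fun x hx => (hQn x hx).sub (hQ x (by linarith))
    have hQd : ‖(Qn w - Q w) - (Qn 0 - Q 0)‖ ≤ ε * ‖w - 0‖ := by
      apply Convex.norm_image_sub_le_of_norm_hasDerivWithin_le (s := segment ℝ 0 w)
        (f := fun z => Qn z - Q z) (f' := fun x => q (fT n x) - q x)
      · intro x hx
        exact (hder x (hseg x hx).1).hasDerivWithinAt
      · exact hclose
      · exact convex_segment _ _
      · exact left_mem_segment _ _ _
      · exact right_mem_segment _ _ _
    rw [hQn0, hQ0] at hQd
    simp only [sub_zero] at hQd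
    have hqd := hclose w (right_mem_segment _ _ _)
    have e0 : fA q Q w = fA (fun z => q (fT n z)) Qn w - w.re * (w * (q (fT n w) - q w)).re
        - w.im * (Qn w - Q w).im := by
      simp only [fA, Complex.mul_re, Complex.sub_re, Complex.sub_im]
      ring
    have e2 : |w.re * (w * (q (fT n w) - q w)).re| ≤ ‖w‖ * (‖w‖ * ε) := by
      rw [abs_mul]
      apply mul_le_mul (Complex.abs_re_le_norm w) _ (abs_nonneg _) (norm_nonneg _)
      refine (Complex.abs_re_le_norm _).trans ?_
      rw [norm_mul]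
      gcongr
    have e3 : |w.im * (Qn w - Q w).im| ≤ ‖w‖ * (ε * ‖w‖) := by
      rw [abs_mul]
      apply mul_le_mul (Complex.abs_im_le_norm w) _ (abs_nonneg _) (norm_nonneg _)
      exact (Complex.abs_im_le_norm _).trans hQd
    rw [e0]
    have e4 := le_abs_self (w.re * (w * (q (fT n w) - q w)).re)
    have e5 := le_abs_self (w.im * (Qn w - Q w).im)
    have e6 := hpos w hw
    nlinarith
  by_contra hneg
  push Not at hneg
  have hwn : 0 < ‖w‖ := by
    rcases (norm_nonneg w).lt_or_eq with h | h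
    · exact h
    · have := hmain 1 one_pos
      rw [← h] at this
      simp at this
      linarith
  have h1 := hmain (-fA q Q w / (4 * ‖w‖ ^ 2)) (by apply div_pos <;> [linarith; positivity])
  have h2 : 2 * ‖w‖ ^ 2 * (-fA q Q w / (4 * ‖w‖ ^ 2)) = -fA q Q w / 2 := by
    field_simp; ring
  rw [h2] at h1
  linarith

end Pool.Agent.NH66.Speed
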