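import Pool.Agent.NH66.Speed.Half
import Pool.Agent.NH66.Speed.Key

/-!
# The modulus of the orbit in the half plane increases
-/

set_option autoImplicit false

open Complex Set Filter Topology Metric

namespace Pool.Agent.NH66.Speed

variable {φ : ℝ → ℂ → ℂ} {τ : ℂ}

theorem dichotomy {p : ℂ → ℂ} (hp : DifferentiableOn ℂ p {w | 0 < w.re})
    (hre : ∀ w : ℂ, 0 < w.re → 0 ≤ (p w).re) :
    (∃ c : ℂ, ∀ w : ℂ, 0 < w.re → p w = c) ∨ (∀ w : ℂ, 0 < w.re → 0 < (p w).re) := by
  have hopen : IsOpen {w : ℂ | 0 < w.re} := isOpen_lt continuous_const Complex.continuous_re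
  have han : AnalyticOnNhd ℂ p {w | 0 < w.re} := hp.analyticOnNhd hopen
  have hpre : IsPreconnected {w : ℂ | 0 < w.re} := (convex_halfSpace_re_gt 0).isPreconnected
  rcases han.is_constant_or_isOpen hpre with ⟨c, hc⟩ | hO
  · left
    exact ⟨c, fun w hw => hc w (by simpa only [Set.mem_ofPred_eq] using hw)⟩
  · right
    intro w hw
    rcases (hre w hw).lt_or_eq with h | h
    · exact h
    exfalso
    have h1 := hO {w | 0 < w.re} (subset_refl _) hopen
    have h2 : p w ∈ p '' {w | 0 < w.re} := ⟨w, by simpa only [Set.mem_ofPred_eq] using hw, rfl⟩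
    rw [Metric.isOpen_iff] at h1
    obtain ⟨ε, hε, hε2⟩ := h1 _ h2
    have h3 : p w - ((ε / 2 : ℝ) : ℂ) ∈ ball (p w) ε := by
      rw [mem_ball_iff_norm, sub_sub_cancel_left, norm_neg, Complex.norm_real,
        Real.norm_of_nonneg (by positivity)]
      linarith
    obtain ⟨w', hw', he⟩ := hε2 h3
    have h4 := hre w' (by simpa only [Set.mem_ofPred_eq] using hw')
    rw [he, Complex.sub_re, Complex.ofReal_re, ← h] at h4
    linarith

theorem orb_one (h : IsSemigroup φ) : orb φ τ 0 0 = 1 := by
  rw [orb, h.zero 0 (by simp), mul_zero, cay]; simp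

theorem orb_cont (h : IsSemigroup φ) (hτ : ‖τ‖ = 1) : ContinuousOn (orb φ τ 0) (Ici 0) :=
  fun _ ht => (orb_deriv h hτ (by simp) ht).continuousWithinAt

theorem orb_hasDerivAt (h : IsSemigroup φ) (hτ : ‖τ‖ = 1) {t : ℝ} (ht : 0 < t) :
    HasDerivAt (orb φ τ 0) (pG φ τ (orb φ τ 0 t)) t :=
  (orb_deriv h hτ (by simp) ht.le).hasDerivAt (Ici_mem_nhds ht)

theorem mono_of_inner (h : IsSemigroup φ) (hτ : ‖τ‖ = 1)
    (hin : ∀ t : ℝ, 0 < t → 0 < (orb φ τ 0 t).re * (pG φ τ (orb φ τ 0 t)).re +
      (orb φ τ 0 t).im * (pG φ τ (orb φ τ 0 t)).im) :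
    StrictMonoOn (fun t => ‖orb φ τ 0 t‖) (Ici 0) := by
  have hsq : StrictMonoOn (fun t => (orb φ τ 0 t).re ^ 2 + (orb φ τ 0 t).im ^ 2) (Ici 0) := by
    apply strictMonoOn_of_deriv_pos (convex_Ici 0)
    · have h1 := orb_cont h hτ
      exact ((Complex.continuous_re.comp_continuousOn h1).pow 2).add
        ((Complex.continuous_im.comp_continuousOn h1).pow 2)
    · intro t ht
      rw [interior_Ici, mem_Ioi] at ht
      have h1 := orb_hasDerivAt h hτ ht
      have h2 := ((hasDerivAt_re h1).pow 2).add ((hasDerivAt_im h1).pow 2)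
      have h3 : deriv (fun t => (orb φ τ 0 t).re ^ 2 + (orb φ τ 0 t).im ^ 2) t =
          2 * ((orb φ τ 0 t).re * (pG φ τ (orb φ τ 0 t)).re +
            (orb φ τ 0 t).im * (pG φ τ (orb φ τ 0 t)).im) := by
        refine (h2.congr_deriv ?_).deriv
        simp only [Nat.cast_ofNat, Nat.reduceSub, pow_one]
        ring
      rw [h3]
      linarith [hin t ht]
  intro s hs t ht hst
  have h1 := hsq hs ht hst
  simp only at h1 ⊢
  apply lt_of_pow_lt_pow_left₀ 2 (norm_nonneg _)
  rw [← Complex.normSq_eq_norm_sq, ← Complex.normSq_eq_norm_sq, Complex.normSq_apply,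
    Complex.normSq_apply]
  linarith

theorem norm_orb_strictMono (h : IsSemigroup φ) (hdw : IsDenjoyWolff φ τ) :
    StrictMonoOn (fun t => ‖orb φ τ 0 t‖) (Ici 0) := by
  have hτ := hdw.1
  have h01 : (0 : ℂ) ∈ ball (0 : ℂ) 1 := by simp
  apply mono_of_inner h hτ
  rcases dichotomy (pG_diff h hτ) (fun w hw => pG_re h hdw hw) with ⟨c, hc⟩ | hpos
  · -- constant generator
    intro t ht
    have hform : ∀ t : ℝ, 0 ≤ t → orb φ τ 0 t = 1 + (t : ℂ) * c := by
      intro t ht
      have hd : ∀ x ∈ Ici (0:ℝ), HasDerivWithinAt (fun s : ℝ => orb φ τ 0 s - (s : ℂ) * c) 0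
          (Ici 0) x := by
        intro x hx
        have h1 := orb_deriv h hτ h01 hx
        rw [hc _ (orb_re_pos h hτ h01 hx)] at h1
        have h2 : HasDerivWithinAt (fun s : ℝ => (s : ℂ) * c) c (Ici 0) x := by
          have := ((Complex.ofRealCLM.hasDerivAt (x := x)).mul_const c).hasDerivWithinAt (s := Ici 0)
          refine this.congr_deriv ?_
          simp
        exact (h1.sub h2).congr_deriv (sub_self c)
      have := Convex.norm_image_sub_le_of_norm_hasDerivWithin_le (s := Ici (0:ℝ))
        (f := fun s : ℝ => orb φ τ 0 s - (s : ℂ) * c) (f' := fun _ => 0) (C := 0) (x := 0) (y := t)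
        hd (fun x _ => by simp) (convex_Ici 0) (by simp) ht
      simp only [zero_mul, norm_le_zero_iff] at this
      rw [orb_one h] at this
      simp only [Complex.ofReal_zero, zero_mul, sub_zero] at this
      linear_combination this
    have hcne : c ≠ 0 := by
      have := pG_ne h hdw (w := 1) (by simp)
      rwa [hc 1 (by simp)] at this
    have hcre : 0 ≤ c.re := by
      have := pG_re h hdw (w := 1) (by simp)
      rwa [hc 1 (by simp)] at this
    rw [hc _ (orb_re_pos h hτ h01 ht.le), hform t ht.le]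
    have hN : 0 < c.re * c.re + c.im * c.im := by
      rw [← Complex.normSq_apply]
      exact Complex.normSq_pos.mpr hcne
    simp
    nlinarith [mul_pos ht hN]
  · -- nonconstant generator
    set p : ℂ → ℂ := pG φ τ with hp
    have hpne : ∀ w : ℂ, 0 < w.re → p w ≠ 0 := fun w hw => pG_ne h hdw hw
    have hopen : IsOpen {w : ℂ | 0 < w.re} := isOpen_lt continuous_const Complex.continuous_re
    have hre1 : ∀ ζ : ℂ, -1 < ζ.re → 0 < (1 + ζ).re := by
      intro ζ hζ
      simp only [Complex.add_re, Complex.one_re]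
      linarith
    set q : ℂ → ℂ := fun ζ => (p (1 + ζ))⁻¹ with hq
    have hqd : DifferentiableOn ℂ q {w | -1 < w.re} := by
      intro ζ hζ
      simp only [Set.mem_ofPred_eq] at hζ
      have h1 := hre1 ζ hζ
      have h2 : DifferentiableAt ℂ p (1 + ζ) := (pG_diff h hτ).differentiableAt
        (hopen.mem_nhds (by simpa only [Set.mem_ofPred_eq] using h1))
      have h3 : DifferentiableAt ℂ (fun ζ : ℂ => 1 + ζ) ζ := by fun_prop
      have h4 : DifferentiableAt ℂ (fun ζ : ℂ => p (1 + ζ)) ζ :=
        DifferentiableAt.comp (g := p) (f := fun ζ : ℂ => 1 + ζ) ζ h2 h3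
      exact (h4.inv (hpne _ h1)).differentiableWithinAt
    obtain ⟨Q, hQ0, hQ⟩ := exists_primitive hqd
    have hqre : ∀ ζ : ℂ, -1 < ζ.re → 0 < (q ζ).re := by
      intro ζ hζ
      have h1 := hpos _ (hre1 ζ hζ)
      simp only [hq, Complex.inv_re]
      exact div_pos h1 (Complex.normSq_pos.mpr (hpne _ (hre1 ζ hζ)))
    have hkey := key one_pos hqd hQ hQ0 hqre
    -- the orbit
    have hw0 := orb_one (τ := τ) h
    have hgt : ∀ t : ℝ, 0 < t → 1 < (orb φ τ 0 t).re := by
      have : StrictMonoOn (fun t => (orb φ τ 0 t).re) (Ici 0) := by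
        apply strictMonoOn_of_deriv_pos (convex_Ici 0)
        · exact Complex.continuous_re.comp_continuousOn (orb_cont h hτ)
        · intro t ht
          rw [interior_Ici, mem_Ioi] at ht
          rw [(hasDerivAt_re (orb_hasDerivAt h hτ ht)).deriv]
          exact hpos _ (orb_re_pos h hτ h01 ht.le)
      intro t ht
      have := this (by simp : (0:ℝ) ∈ Ici 0) (by exact ht.le) ht
      simp only [hw0, Complex.one_re] at this
      exact this
    have hge : ∀ t : ℝ, 0 ≤ t → 0 ≤ (orb φ τ 0 t - 1).re := by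
      intro t ht
      rcases ht.lt_or_eq with h1 | h1
      · have := hgt t h1
        simp only [Complex.sub_re, Complex.one_re]; linarith
      · rw [← h1, hw0]; simp
    have hQt : ∀ t : ℝ, 0 ≤ t → Q (orb φ τ 0 t - 1) = t := by
      intro t ht
      have hd : ∀ x ∈ Ici (0:ℝ), HasDerivWithinAt (fun s : ℝ => Q (orb φ τ 0 s - 1) - (s : ℂ)) 0
          (Ici 0) x := by
        intro x hx
        have h1 := (orb_deriv h hτ h01 hx).sub_const 1
        have h2 := hQ (orb φ τ 0 x - 1) (by linarith [hge x hx])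
        have h3 := h2.comp_hasDerivWithinAt x h1
        have h4 : HasDerivWithinAt (fun s : ℝ => (s : ℂ)) 1 (Ici 0) x := by
          have := (Complex.ofRealCLM.hasDerivAt (x := x)).hasDerivWithinAt (s := Ici 0)
          refine this.congr_deriv ?_
          simp
        refine (h3.sub h4).congr_deriv ?_
        simp only [hq]
        rw [add_sub_cancel, inv_mul_cancel₀ (hpne _ (orb_re_pos h hτ h01 hx)), sub_self]
      have := Convex.norm_image_sub_le_of_norm_hasDerivWithin_le (s := Ici (0:ℝ))
        (f := fun s : ℝ => Q (orb φ τ 0 s - 1) - (s : ℂ)) (f' := fun _ => 0) (C := 0) (x := 0)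
        (y := t) hd (fun x _ => by simp) (convex_Ici 0) (by simp) ht
      simp only [zero_mul, norm_le_zero_iff] at this
      rw [hw0, sub_self, hQ0] at this
      simp only [Complex.ofReal_zero, sub_zero] at this
      linear_combination this
    intro t ht
    set w := orb φ τ 0 t with hw
    have h1 := hkey (w - 1) (hge t ht.le)
    rw [fA, hQt t ht.le, Complex.ofReal_im, mul_zero, add_zero] at h1
    have h2 : 0 < (w - 1).re := by
      have := hgt t ht
      simp only [Complex.sub_re, Complex.one_re]; linarith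
    have h3 : 0 ≤ ((w - 1) * q (w - 1)).re := by
      by_contra hlt
      push Not at hlt
      nlinarith
    have h4 : q (w - 1) = (p w)⁻¹ := by simp only [hq]; rw [add_sub_cancel]
    have hwre : 0 < w.re := orb_re_pos h hτ h01 ht.le
    have hN : 0 < normSq (p w) := Complex.normSq_pos.mpr (hpne _ hwre)
    rw [h4, Complex.mul_re, Complex.inv_re, Complex.inv_im] at h3
    have h5 : (w - 1).re * ((p w).re / normSq (p w)) - (w - 1).im * (-(p w).im / normSq (p w)) =
        ((w - 1).re * (p w).re + (w - 1).im * (p w).im) / normSq (p w) := by ring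
    rw [h5] at h3
    have h6 : 0 ≤ (w - 1).re * (p w).re + (w - 1).im * (p w).im := by
      by_contra hlt
      push Not at hlt
      have := div_neg_of_neg_of_pos hlt hN
      linarith
    have h7 := hpos w hwre
    simp only [Complex.sub_re, Complex.sub_im, Complex.one_re, Complex.one_im, sub_zero] at h6
    nlinarith

end Pool.Agent.NH66.Speed
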