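import Mathlib

/-!
# A minimum principle

Let `q` be holomorphic with nonnegative real part in a right half plane, `Q` a primitive of `q`
vanishing at the boundary point `0`.  Then
`Re w * Re (w q(w)) + Im w * Im Q(w) ≥ 0` for `Re w ≥ 0`.
-/

set_option autoImplicit false

open Complex Set Filter Topology

namespace Pool.Agent.NH66.Speed

/-- second derivative test -/
theorem second_deriv_nonneg {g g' : ℝ → ℝ} {g'' : ℝ} (h1 : ∀ᶠ s in 𝓝 (0:ℝ), HasDerivAt g (g' s) s)
    (h2 : HasDerivAt g' g'' 0) (hmin : IsLocalMin g 0) : 0 ≤ g'' := by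
  by_contra hlt
  push Not at hlt
  have h0 : g' 0 = 0 := by
    have := hmin.hasDerivAt_eq_zero h1.self_of_nhds
    exact this
  have hd : deriv g =ᶠ[𝓝 0] g' := h1.mono fun s hs => hs.deriv
  have hdd : deriv (deriv g) 0 = g'' := by
    rw [hd.deriv_eq, h2.deriv]
  have hmax : IsLocalMax g 0 := by
    apply isLocalMax_of_deriv_deriv_neg
    · rw [hdd]; exact hlt
    · rw [h1.self_of_nhds.deriv, h0]
    · exact h1.self_of_nhds.continuousAt
  -- g is locally constant
  have hc : ∀ᶠ s in 𝓝 (0:ℝ), g s = g 0 := by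
    filter_upwards [hmin, hmax] with s ha hb
    exact le_antisymm hb ha
  have hd0 : ∀ᶠ s in 𝓝 (0:ℝ), g' s = 0 := by
    have h3 : ∀ᶠ s in 𝓝 (0:ℝ), ∀ᶠ r in 𝓝 s, g r = g 0 := hc.eventually_nhds
    filter_upwards [h1, h3] with s hs hr
    have : HasDerivAt g 0 s := by
      have := (hasDerivAt_const s (g 0)).congr_of_eventuallyEq hr
      exact this
    exact hs.unique this
  have : HasDerivAt g' 0 0 := (hasDerivAt_const (0:ℝ) (0:ℝ)).congr_of_eventuallyEq hd0
  have := h2.unique this
  linarith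

/-- the functional -/
noncomputable def fA (q Q : ℂ → ℂ) (w : ℂ) : ℝ := w.re * (w * q w).re + w.im * (Q w).im

theorem hasDerivAt_re {F : ℝ → ℂ} {F' : ℂ} {s : ℝ} (h : HasDerivAt F F' s) :
    HasDerivAt (fun t => (F t).re) F'.re s := by
  exact (Complex.reCLM.hasFDerivAt.comp_hasDerivAt s h)

theorem hasDerivAt_im {F : ℝ → ℂ} {F' : ℂ} {s : ℝ} (h : HasDerivAt F F' s) :
    HasDerivAt (fun t => (F t).im) F'.im s := by
  exact (Complex.imCLM.hasFDerivAt.comp_hasDerivAt s h)

theorem line_deriv {q : ℂ → ℂ} {q' w c : ℂ} {s : ℝ} (h : HasDerivAt q q' (w + s * c)) :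
    HasDerivAt (fun t : ℝ => q (w + t * c)) (q' * c) s := by
  have h1 : HasDerivAt (fun t : ℝ => w + (t : ℂ) * c) c s := by
    have := (Complex.ofRealCLM.hasDerivAt (x := s)).mul_const c
    simpa using this.const_add w
  exact h.comp s h1

/-- horizontal derivatives -/
theorem horiz {q Q q1 : ℂ → ℂ} {w : ℂ} {s ε : ℝ}
    (hQ : HasDerivAt Q (q (w + s * 1)) (w + s * 1))
    (hq : HasDerivAt q (q1 (w + s * 1)) (w + s * 1)) :
    HasDerivAt (fun t : ℝ => fA q Q (w + t * 1) + ε * (w + t * 1).re ^ 2)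
      (2 * (w + s * 1).re * (q (w + s * 1)).re + (w + s * 1).re ^ 2 * (q1 (w + s * 1)).re
        - (w + s * 1).re * (w + s * 1).im * (q1 (w + s * 1)).im + 2 * ε * (w + s * 1).re) s := by
  have e1 := hasDerivAt_re (line_deriv hq)
  have e2 := hasDerivAt_im (line_deriv hq)
  have e3 := hasDerivAt_im (line_deriv hQ)
  have e4 : HasDerivAt (fun t : ℝ => (w + (t : ℂ) * 1).re) 1 s := by
    have := (hasDerivAt_id s).const_add w.re
    simpa using this
  have e5 : HasDerivAt (fun t : ℝ => (w + (t : ℂ) * 1).im) 0 s := by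
    have := (hasDerivAt_const s w.im)
    simpa using this
  have h := ((((e4.pow 2).mul e1).sub ((e4.mul e5).mul e2)).add (e5.mul e3)).add
    ((e4.pow 2).const_mul ε)
  have hf : (fun t : ℝ => fA q Q (w + t * 1) + ε * (w + t * 1).re ^ 2) =
      (fun t : ℝ => (w + (t : ℂ) * 1).re ^ 2 * (q (w + t * 1)).re -
        (w + (t : ℂ) * 1).re * (w + (t : ℂ) * 1).im * (q (w + t * 1)).im +
        (w + (t : ℂ) * 1).im * (Q (w + t * 1)).im + ε * (w + (t : ℂ) * 1).re ^ 2) := by
    funext t
    simp only [fA, Complex.mul_re]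
    ring
  rw [hf]
  refine h.congr_deriv ?_
  simp only [mul_one, Nat.cast_ofNat, Nat.reduceSub, pow_one, Pi.pow_apply, Pi.mul_apply]
  ring

/-- horizontal second derivative -/
theorem horiz2 {q q1 q2 : ℂ → ℂ} {w : ℂ} {s ε : ℝ}
    (hq : HasDerivAt q (q1 (w + s * 1)) (w + s * 1))
    (hq1 : HasDerivAt q1 (q2 (w + s * 1)) (w + s * 1)) :
    HasDerivAt (fun s : ℝ => 2 * (w + s * 1).re * (q (w + s * 1)).re
        + (w + s * 1).re ^ 2 * (q1 (w + s * 1)).re
        - (w + s * 1).re * (w + s * 1).im * (q1 (w + s * 1)).im + 2 * ε * (w + s * 1).re)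
      (2 * (q (w + s * 1)).re + 4 * (w + s * 1).re * (q1 (w + s * 1)).re
        - (w + s * 1).im * (q1 (w + s * 1)).im + (w + s * 1).re ^ 2 * (q2 (w + s * 1)).re
        - (w + s * 1).re * (w + s * 1).im * (q2 (w + s * 1)).im + 2 * ε) s := by
  have e1 := hasDerivAt_re (line_deriv hq)
  have e2 := hasDerivAt_re (line_deriv hq1)
  have e3 := hasDerivAt_im (line_deriv hq1)
  have e4 : HasDerivAt (fun t : ℝ => (w + (t : ℂ) * 1).re) 1 s := by
    have := (hasDerivAt_id s).const_add w.re
    simpa using this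
  have e5 : HasDerivAt (fun t : ℝ => (w + (t : ℂ) * 1).im) 0 s := by
    have := (hasDerivAt_const s w.im)
    simpa using this
  have h := (((((e4.const_mul 2).mul e1).add ((e4.pow 2).mul e2)).sub
    ((e4.mul e5).mul e3))).add (e4.const_mul (2 * ε))
  refine h.congr_deriv ?_
  simp only [mul_one, Nat.cast_ofNat, Nat.reduceSub, pow_one, Pi.pow_apply, Pi.mul_apply]
  ring

/-- vertical derivatives -/
theorem vert {q Q q1 : ℂ → ℂ} {w : ℂ} {s ε : ℝ}
    (hQ : HasDerivAt Q (q (w + s * I)) (w + s * I))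
    (hq : HasDerivAt q (q1 (w + s * I)) (w + s * I)) :
    HasDerivAt (fun t : ℝ => fA q Q (w + t * I) + ε * (w + t * I).re ^ 2)
      (-((w + s * I).re ^ 2 * (q1 (w + s * I)).im) - (w + s * I).re * (q (w + s * I)).im
        - (w + s * I).re * (w + s * I).im * (q1 (w + s * I)).re + (Q (w + s * I)).im
        + (w + s * I).im * (q (w + s * I)).re) s := by
  have e1 := hasDerivAt_re (line_deriv hq)
  have e2 := hasDerivAt_im (line_deriv hq)
  have e3 := hasDerivAt_im (line_deriv hQ)
  have e4 : HasDerivAt (fun t : ℝ => (w + (t : ℂ) * I).re) 0 s := by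
    have := (hasDerivAt_const s w.re)
    simpa using this
  have e5 : HasDerivAt (fun t : ℝ => (w + (t : ℂ) * I).im) 1 s := by
    have := (hasDerivAt_id s).const_add w.im
    simpa using this
  have h := ((((e4.pow 2).mul e1).sub ((e4.mul e5).mul e2)).add (e5.mul e3)).add
    ((e4.pow 2).const_mul ε)
  have hf : (fun t : ℝ => fA q Q (w + t * I) + ε * (w + t * I).re ^ 2) =
      (fun t : ℝ => (w + (t : ℂ) * I).re ^ 2 * (q (w + t * I)).re -
        (w + (t : ℂ) * I).re * (w + (t : ℂ) * I).im * (q (w + t * I)).im +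
        (w + (t : ℂ) * I).im * (Q (w + t * I)).im + ε * (w + (t : ℂ) * I).re ^ 2) := by
    funext t
    simp only [fA, Complex.mul_re]
    ring
  rw [hf]
  refine h.congr_deriv ?_
  have r1 : (q1 (w + s * I) * I).re = -(q1 (w + s * I)).im := by simp
  have r2 : (q1 (w + s * I) * I).im = (q1 (w + s * I)).re := by simp
  have r3 : (q (w + s * I) * I).im = (q (w + s * I)).re := by simp
  rw [r1, r2, r3]
  simp only [Nat.cast_ofNat, Nat.reduceSub, pow_one, Pi.pow_apply, Pi.mul_apply]
  ring

/-- vertical second derivative -/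
theorem vert2 {q Q q1 q2 : ℂ → ℂ} {w : ℂ} {s : ℝ}
    (hQ : HasDerivAt Q (q (w + s * I)) (w + s * I))
    (hq : HasDerivAt q (q1 (w + s * I)) (w + s * I))
    (hq1 : HasDerivAt q1 (q2 (w + s * I)) (w + s * I)) :
    HasDerivAt (fun s : ℝ => -((w + s * I).re ^ 2 * (q1 (w + s * I)).im)
        - (w + s * I).re * (q (w + s * I)).im
        - (w + s * I).re * (w + s * I).im * (q1 (w + s * I)).re + (Q (w + s * I)).im
        + (w + s * I).im * (q (w + s * I)).re)
      (-((w + s * I).re ^ 2 * (q2 (w + s * I)).re) - 2 * (w + s * I).re * (q1 (w + s * I)).re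
        + (w + s * I).re * (w + s * I).im * (q2 (w + s * I)).im + 2 * (q (w + s * I)).re
        - (w + s * I).im * (q1 (w + s * I)).im) s := by
  have e1 := hasDerivAt_re (line_deriv hq)
  have e2 := hasDerivAt_im (line_deriv hq)
  have e3 := hasDerivAt_im (line_deriv hQ)
  have e6 := hasDerivAt_re (line_deriv hq1)
  have e7 := hasDerivAt_im (line_deriv hq1)
  have e4 : HasDerivAt (fun t : ℝ => (w + (t : ℂ) * I).re) 0 s := by
    have := (hasDerivAt_const s w.re)
    simpa using this
  have e5 : HasDerivAt (fun t : ℝ => (w + (t : ℂ) * I).im) 1 s := by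
    have := (hasDerivAt_id s).const_add w.im
    simpa using this
  have h := ((((((e4.pow 2).mul e7).neg).sub (e4.mul e2)).sub ((e4.mul e5).mul e6)).add e3).add
    (e5.mul e1)
  refine h.congr_deriv ?_
  have r1 : (q1 (w + s * I) * I).re = -(q1 (w + s * I)).im := by simp
  have r2 : (q1 (w + s * I) * I).im = (q1 (w + s * I)).re := by simp
  have r3 : (q (w + s * I) * I).im = (q (w + s * I)).re := by simp
  have r4 : (q2 (w + s * I) * I).re = -(q2 (w + s * I)).im := by simp
  have r5 : (q2 (w + s * I) * I).im = (q2 (w + s * I)).re := by simp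
  rw [r1, r2, r3, r4, r5]
  simp only [Nat.cast_ofNat, Nat.reduceSub, pow_one, Pi.pow_apply, Pi.mul_apply]
  ring

theorem bounded_case {q Q : ℂ → ℂ} {δ : ℝ} (hδ : 0 < δ)
    (hq : DifferentiableOn ℂ q {w | -δ < w.re})
    (hQ : ∀ w : ℂ, -δ < w.re → HasDerivAt Q (q w) w) (hQ0 : Q 0 = 0)
    (hre : ∀ w : ℂ, 0 ≤ w.re → 0 ≤ (q w).re) {R : ℝ}
    (harc : ∀ w : ℂ, 0 ≤ w.re → ‖w‖ = R → 0 < fA q Q w) :
    ∀ w : ℂ, 0 ≤ w.re → ‖w‖ ≤ R → 0 ≤ fA q Q w := by
  intro w0 hw0 hw0R
  by_contra hneg
  push Not at hneg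
  have hopen : IsOpen {w : ℂ | -δ < w.re} := isOpen_lt continuous_const Complex.continuous_re
  -- choice of epsilon
  obtain ⟨ε, hε, hε2⟩ : ∃ ε : ℝ, 0 < ε ∧ fA q Q w0 + ε * w0.re ^ 2 < 0 := by
    have hN : 0 < w0.re ^ 2 + 1 := by positivity
    refine ⟨-fA q Q w0 / (2 * (w0.re ^ 2 + 1)), by
      apply div_pos <;> [linarith; linarith], ?_⟩
    have h1 : -fA q Q w0 / (2 * (w0.re ^ 2 + 1)) * (w0.re ^ 2 + 1) = -fA q Q w0 / 2 := by
      field_simp
    have h2 : 0 < -fA q Q w0 / (2 * (w0.re ^ 2 + 1)) := by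
      apply div_pos <;> linarith
    nlinarith
  set f : ℂ → ℝ := fun w => fA q Q w + ε * w.re ^ 2 with hf
  set q1 : ℂ → ℂ := deriv q with hq1
  set q2 : ℂ → ℂ := deriv q1 with hq2
  have dq : ∀ w : ℂ, -δ < w.re → HasDerivAt q (q1 w) w := fun w hw =>
    (hq.differentiableAt (hopen.mem_nhds hw)).hasDerivAt
  have hq1d : DifferentiableOn ℂ q1 {w | -δ < w.re} := hq.deriv hopen
  have dq1 : ∀ w : ℂ, -δ < w.re → HasDerivAt q1 (q2 w) w := fun w hw =>
    (hq1d.differentiableAt (hopen.mem_nhds hw)).hasDerivAt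
  -- compactness
  set K : Set ℂ := {w | 0 ≤ w.re} ∩ Metric.closedBall 0 R with hK
  have hKc : IsCompact K := by
    apply IsCompact.inter_left
    · exact isCompact_closedBall _ _
    · exact isClosed_le continuous_const Complex.continuous_re
  have hKne : K.Nonempty := ⟨w0, hw0, by simpa using hw0R⟩
  have hcont : ContinuousOn f K := by
    intro w hw
    have h1 : -δ < w.re := by have := hw.1; simp only [Set.mem_ofPred_eq] at this; linarith
    have c1 : ContinuousAt q w := (dq w h1).continuousAt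
    have c2 : ContinuousAt Q w := (hQ w h1).continuousAt
    apply ContinuousAt.continuousWithinAt
    simp only [hf, fA]
    have c3 : ContinuousAt (fun w : ℂ => (w * q w).re) w :=
      Complex.continuous_re.continuousAt.comp (continuousAt_id.mul c1)
    have c4 : ContinuousAt (fun w : ℂ => (Q w).im) w :=
      Complex.continuous_im.continuousAt.comp c2
    have c5 : ContinuousAt (fun w : ℂ => w.re) w := Complex.continuous_re.continuousAt
    have c6 : ContinuousAt (fun w : ℂ => w.im) w := Complex.continuous_im.continuousAt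
    exact ((c5.mul c3).add (c6.mul c4)).add ((c5.pow 2).const_mul ε)
  obtain ⟨w1, hw1K, hmin⟩ := hKc.exists_isMinOn hKne hcont
  have hw1re : 0 ≤ w1.re := hw1K.1
  have hw1n : ‖w1‖ ≤ R := by simpa using hw1K.2
  have hfw1 : f w1 < 0 := lt_of_le_of_lt (hmin ⟨hw0, by simpa using hw0R⟩) hε2
  -- not on the imaginary axis
  have hpos : 0 < w1.re := by
    rcases hw1re.lt_or_eq with h | h
    · exact h
    exfalso
    have hfe : f w1 = w1.im * (Q w1).im := by
      simp only [hf, fA, ← h]; ring
    -- monotonicity on the axis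
    have hmono : Monotone (fun y : ℝ => (Q (0 + y * I)).im) := by
      apply monotone_of_deriv_nonneg
      · intro y
        have := hasDerivAt_im (line_deriv (s := y) (w := 0) (c := I) (hQ (0 + y * I) (by simpa using hδ)))
        exact this.differentiableAt
      · intro y
        have := hasDerivAt_im (line_deriv (s := y) (w := 0) (c := I) (hQ (0 + y * I) (by simpa using hδ)))
        rw [this.deriv]
        have h2 := hre (0 + y * I) (by simp)
        simpa using h2
    have hw1e : w1 = 0 + (w1.im : ℂ) * I := by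
      apply Complex.ext <;> simp [← h]
    have h0 : (Q (0 + ((0:ℝ) : ℂ) * I)).im = 0 := by simp [hQ0]
    have hnn : 0 ≤ w1.im * (Q w1).im := by
      rcases le_total 0 w1.im with hi | hi
      · have := hmono hi
        simp only at this
        rw [h0, ← hw1e] at this
        exact mul_nonneg hi this
      · have := hmono hi
        simp only at this
        rw [h0, ← hw1e] at this
        exact mul_nonneg_of_nonpos_of_nonpos hi this
    linarith
  -- not on the arc
  have hlt : ‖w1‖ < R := by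
    rcases hw1n.lt_or_eq with h | h
    · exact h
    exfalso
    have := harc w1 hw1re h
    have h2 : 0 ≤ ε * w1.re ^ 2 := by positivity
    have h3 : f w1 = fA q Q w1 + ε * w1.re ^ 2 := rfl
    linarith
  have hnhds : K ∈ 𝓝 w1 := by
    apply Filter.inter_mem
    · exact Filter.mem_of_superset ((isOpen_lt continuous_const Complex.continuous_re).mem_nhds hpos)
        (fun z hz => by
          simp only [Set.mem_ofPred_eq] at hz ⊢
          exact hz.le)
    · exact Filter.mem_of_superset (Metric.isOpen_ball.mem_nhds (by simpa using hlt))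
        Metric.ball_subset_closedBall
  have hloc : IsLocalMin f w1 := by
    filter_upwards [hnhds] with z hz using hmin hz
  have hδ1 : -δ < w1.re := by linarith
  -- lines
  have hline : ∀ c : ℂ, Tendsto (fun s : ℝ => w1 + (s : ℂ) * c) (𝓝 0) (𝓝 w1) := by
    intro c
    have : Continuous (fun s : ℝ => w1 + (s : ℂ) * c) := by fun_prop
    have h := this.tendsto 0
    simpa using h
  have hlocal : ∀ c : ℂ, IsLocalMin (fun s : ℝ => f (w1 + s * c)) 0 := by
    intro c
    have := (hline c).eventually hloc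
    filter_upwards [this] with s hs
    simpa using hs
  have hev : ∀ c : ℂ, ∀ᶠ s : ℝ in 𝓝 0, -δ < (w1 + (s : ℂ) * c).re := by
    intro c
    exact (hline c).eventually (hopen.mem_nhds hδ1)
  have H1 := second_deriv_nonneg (g := fun s : ℝ => f (w1 + s * 1))
    ((hev 1).mono fun s hs => horiz (ε := ε) (hQ _ hs) (dq _ hs))
    (horiz2 (q2 := q2) (dq _ (by simpa using hδ1)) (dq1 _ (by simpa using hδ1))) (hlocal 1)
  have H2 := second_deriv_nonneg (g := fun s : ℝ => f (w1 + s * I))
    ((hev I).mono fun s hs => vert (ε := ε) (hQ _ hs) (dq _ hs))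
    (vert2 (q2 := q2) (hQ _ (by simpa using hδ1)) (dq _ (by simpa using hδ1))
      (dq1 _ (by simpa using hδ1))) (hlocal I)
  have H0 := (hlocal 1).hasDerivAt_eq_zero
    (horiz (ε := ε) (s := 0) (hQ _ (by simpa using hδ1)) (dq _ (by simpa using hδ1)))
  simp only [ofReal_zero, zero_mul, add_zero] at H0 H1 H2
  -- combine
  set u := w1.re
  set v := w1.im
  set a := (q w1).re
  set b := (q1 w1).re
  set c := (q1 w1).im
  set d := (q2 w1).re
  set e := (q2 w1).im
  have h5 : 2 * a + u * b - v * c + 2 * ε = 0 := by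
    have : u * (2 * a + u * b - v * c + 2 * ε) = 0 := by linarith
    rcases mul_eq_zero.mp this with h | h
    · exact absurd h hpos.ne'
    · exact h
  nlinarith

end Pool.Agent.NH66.Speed
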