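import Pool.Agent.NH66.Speed.Main

/-!
# The closest point projection to the diameter
-/

set_option autoImplicit false

open Complex Set Filter Topology Metric

namespace Pool.Agent.NH66.Speed

/-- the profile of the hyperbolic distance -/
noncomputable def fh (T : ℝ) : ℝ := 1 / 2 * Real.log ((1 + T) / (1 - T))

theorem fh_lt {T S : ℝ} (h0 : 0 ≤ T) (h1 : T < S) (h2 : S < 1) : fh T < fh S := by
  unfold fh
  have h3 : 0 < 1 - S := by linarith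
  have h4 : 0 < 1 - T := by linarith
  have h5 : (1 + T) / (1 - T) < (1 + S) / (1 - S) := by
    rw [div_lt_div_iff₀ h4 h3]; nlinarith
  have h6 : 0 < (1 + T) / (1 - T) := by positivity
  have := Real.log_lt_log h6 h5
  linarith

theorem le_of_fh_le {T S : ℝ} (h0 : T < 1) (h1 : 0 ≤ S) (h : fh T ≤ fh S) : T ≤ S := by
  by_contra hlt
  push Not at hlt
  have := fh_lt h1 hlt h0
  linarith

theorem fh_le {T S : ℝ} (h0 : 0 ≤ T) (h1 : T ≤ S) (h2 : S < 1) : fh T ≤ fh S := by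
  rcases h1.lt_or_eq with h | h
  · exact (fh_lt h0 h h2).le
  · rw [h]

theorem norm_sub_sq (W : ℂ) (s : ℝ) : ‖W - s‖ ^ 2 = ‖W‖ ^ 2 + s ^ 2 - 2 * s * W.re := by
  rw [← Complex.normSq_eq_norm_sq, ← Complex.normSq_eq_norm_sq, Complex.normSq_apply,
    Complex.normSq_apply]
  simp
  ring

theorem norm_add_sq' (W : ℂ) (s : ℝ) : ‖W + s‖ ^ 2 = ‖W‖ ^ 2 + s ^ 2 + 2 * s * W.re := by
  rw [← Complex.normSq_eq_norm_sq, ← Complex.normSq_eq_norm_sq, Complex.normSq_apply,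
    Complex.normSq_apply]
  simp
  ring

theorem add_pos_norm {W : ℂ} (hW : 0 < W.re) {s : ℝ} (hs : 0 < s) : 0 < ‖W + s‖ := by
  apply norm_pos_iff.mpr
  intro h
  have := congrArg Complex.re h
  simp at this
  linarith

/-- the pseudo-hyperbolic distance in the two models -/
theorem pseudo_eq {τ z : ℂ} (hτ : ‖τ‖ = 1) (hz : z ∈ ball (0 : ℂ) 1) {r : ℝ} (h1 : -1 < r)
    (h2 : r < 1) :
    ‖(z - (r : ℂ) * τ) / (1 - (starRingEnd ℂ) ((r : ℂ) * τ) * z)‖ =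
      ‖cay ((starRingEnd ℂ) τ * z) - ((1 + r) / (1 - r) : ℝ)‖ /
        ‖cay ((starRingEnd ℂ) τ * z) + ((1 + r) / (1 - r) : ℝ)‖ := by
  set ζ := (starRingEnd ℂ) τ * z with hζ
  have hζb : ζ ∈ ball (0 : ℂ) 1 := conj_mul_mem hτ hz
  have e1 : z = τ * ζ := by rw [hζ, ← mul_assoc, tau_conj hτ, one_mul]
  have e2 : z - (r : ℂ) * τ = τ * (ζ - r) := by rw [e1]; ring
  have e3 : (starRingEnd ℂ) ((r : ℂ) * τ) * z = r * ζ := by
    rw [map_mul, Complex.conj_ofReal, hζ]; ring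
  have hn1 := one_sub_ne hζb
  have hr1 : (1 : ℂ) - r ≠ 0 := by
    intro h
    have := congrArg Complex.re h
    simp at this
    linarith
  have e4 : cay ζ - ((1 + r) / (1 - r) : ℝ) = 2 * (ζ - r) / ((1 - ζ) * (1 - r)) := by
    rw [cay]; push_cast; field_simp; ring
  have e5 : cay ζ + ((1 + r) / (1 - r) : ℝ) = 2 * (1 - r * ζ) / ((1 - ζ) * (1 - r)) := by
    rw [cay]; push_cast; field_simp; ring
  rw [e2, e3, e4, e5]
  simp only [norm_div, norm_mul, hτ, one_mul]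
  have hp1 : 0 < ‖(1 : ℂ) - ζ‖ := norm_pos_iff.mpr hn1
  have hp2 : 0 < ‖(1 : ℂ) - r‖ := norm_pos_iff.mpr hr1
  have hp3 : 0 < ‖(2 : ℂ)‖ := by simp
  have hp4 : 0 < ‖1 - (r : ℂ) * ζ‖ := by
    apply norm_pos_iff.mpr
    intro h
    have h3 : (r : ℂ) * ζ = 1 := (sub_eq_zero.mp h).symm
    have h4 := congrArg norm h3
    rw [norm_mul, Complex.norm_real, norm_one, Real.norm_eq_abs] at h4
    rw [mem_ball_zero_iff] at hζb
    have h5 : |r| < 1 := abs_lt.mpr ⟨h1, h2⟩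
    nlinarith [norm_nonneg ζ, abs_nonneg r]
  field_simp

theorem pseudo_lt {W : ℂ} (hW : 0 < W.re) {s : ℝ} (hs : 0 < s) :
    ‖W - s‖ / ‖W + s‖ < 1 := by
  have h1 := add_pos_norm hW hs
  rw [div_lt_one h1]
  apply lt_of_pow_lt_pow_left₀ 2 h1.le
  rw [norm_sub_sq, norm_add_sq']
  nlinarith [mul_pos hs hW]

/-- the minimum of the pseudo-hyperbolic distance -/
theorem pseudo_ge {W : ℂ} (hW : 0 < W.re) {s : ℝ} (hs : 0 < s) :
    ‖W - (‖W‖ : ℝ)‖ / ‖W + (‖W‖ : ℝ)‖ ≤ ‖W - s‖ / ‖W + s‖ ∧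
    (‖W - s‖ / ‖W + s‖ ≤ ‖W - (‖W‖ : ℝ)‖ / ‖W + (‖W‖ : ℝ)‖ → s = ‖W‖) := by
  have hρ : 0 < ‖W‖ := lt_of_lt_of_le hW (Complex.re_le_norm W)
  have h1 := add_pos_norm hW hs
  have h2 := add_pos_norm hW hρ
  have key : ‖W - s‖ ^ 2 * ‖W + (‖W‖ : ℝ)‖ ^ 2 - ‖W - (‖W‖ : ℝ)‖ ^ 2 * ‖W + s‖ ^ 2 =
      4 * ‖W‖ * W.re * (‖W‖ - s) ^ 2 := by
    rw [norm_sub_sq, norm_add_sq', norm_sub_sq, norm_add_sq']
    ring
  constructor
  · rw [div_le_div_iff₀ h2 h1]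
    apply le_of_pow_le_pow_left₀ (n := 2) (by norm_num) (by positivity)
    rw [mul_pow, mul_pow]
    have : 0 ≤ 4 * ‖W‖ * W.re * (‖W‖ - s) ^ 2 := by positivity
    linarith
  · intro h
    rw [div_le_div_iff₀ h1 h2] at h
    have h3 := pow_le_pow_left₀ (by positivity) h 2
    rw [mul_pow, mul_pow] at h3
    have h4 : 4 * ‖W‖ * W.re * (‖W‖ - s) ^ 2 ≤ 0 := by linarith
    have h5 : 0 < 4 * ‖W‖ * W.re := by positivity
    have h6 : (‖W‖ - s) ^ 2 ≤ 0 := by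
      by_contra hlt
      push Not at hlt
      have := mul_pos h5 hlt
      linarith
    have h7 : ‖W‖ - s = 0 := by
      have := sq_nonneg (‖W‖ - s)
      exact pow_eq_zero_iff (two_ne_zero) |>.mp (le_antisymm h6 this)
    linarith

theorem hypDist_eq {τ z : ℂ} (hτ : ‖τ‖ = 1) (hz : z ∈ ball (0 : ℂ) 1) {r : ℝ} (h1 : -1 < r)
    (h2 : r < 1) : hypDist z ((r : ℂ) * τ) =
      fh (‖cay ((starRingEnd ℂ) τ * z) - ((1 + r) / (1 - r) : ℝ)‖ /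
        ‖cay ((starRingEnd ℂ) τ * z) + ((1 + r) / (1 - r) : ℝ)‖) := by
  rw [hypDist, pseudo_eq hτ hz h1 h2, fh]

/-- the closest point -/
noncomputable def proj (τ z : ℂ) : ℂ :=
  (((‖cay ((starRingEnd ℂ) τ * z)‖ - 1) / (‖cay ((starRingEnd ℂ) τ * z)‖ + 1) : ℝ) : ℂ) * τ

theorem ratio_aux {ρ : ℝ} (hρ : 0 < ρ) : -1 < (ρ - 1) / (ρ + 1) ∧ (ρ - 1) / (ρ + 1) < 1 ∧
    (1 + (ρ - 1) / (ρ + 1)) / (1 - (ρ - 1) / (ρ + 1)) = ρ := by
  have h : 0 < ρ + 1 := by linarith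
  refine ⟨?_, ?_, ?_⟩
  · rw [lt_div_iff₀ h]; linarith
  · rw [div_lt_one h]; linarith
  · have h1 : 1 - (ρ - 1) / (ρ + 1) = 2 / (ρ + 1) := by field_simp; ring
    have h2 : 1 + (ρ - 1) / (ρ + 1) = 2 * ρ / (ρ + 1) := by field_simp; ring
    rw [h1, h2]
    field_simp

theorem isProj_proj {τ z : ℂ} (hτ : ‖τ‖ = 1) (hz : z ∈ ball (0 : ℂ) 1) :
    IsProj τ z (proj τ z) := by
  have hW := cay_re_pos (conj_mul_mem hτ hz)
  set W := cay ((starRingEnd ℂ) τ * z) with hWdef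
  have hρ : 0 < ‖W‖ := lt_of_lt_of_le hW (Complex.re_le_norm W)
  obtain ⟨h1, h2, h3⟩ := ratio_aux hρ
  refine ⟨⟨_, h1, h2, rfl⟩, ?_⟩
  rintro γ ⟨r, hr1, hr2, rfl⟩
  have hs : 0 < (1 + r) / (1 - r) := div_pos (by linarith) (by linarith)
  rw [proj, hypDist_eq hτ hz h1 h2, hypDist_eq hτ hz hr1 hr2, ← hWdef, h3]
  exact fh_le (by positivity) (pseudo_ge hW hs).1 (pseudo_lt hW hs)

theorem eq_proj {τ z p : ℂ} (hτ : ‖τ‖ = 1) (hz : z ∈ ball (0 : ℂ) 1) (hp : IsProj τ z p) :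
    p = proj τ z := by
  have hW := cay_re_pos (conj_mul_mem hτ hz)
  set W := cay ((starRingEnd ℂ) τ * z) with hWdef
  have hρ : 0 < ‖W‖ := lt_of_lt_of_le hW (Complex.re_le_norm W)
  obtain ⟨h1, h2, h3⟩ := ratio_aux hρ
  obtain ⟨⟨r, hr1, hr2, rfl⟩, hmin⟩ := hp
  have hs : 0 < (1 + r) / (1 - r) := div_pos (by linarith) (by linarith)
  have h4 := hmin (proj τ z) ⟨_, h1, h2, rfl⟩
  rw [proj, hypDist_eq hτ hz h1 h2, hypDist_eq hτ hz hr1 hr2, ← hWdef, h3] at h4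
  have h5 := le_of_fh_le (pseudo_lt hW hs) (by positivity) h4
  have h6 := (pseudo_ge hW hs).2 h5
  rw [proj, ← hWdef, ← h6]
  congr 2
  have h7 : (1 : ℝ) - r ≠ 0 := by linarith
  have h8 : (1 + r) / (1 - r) + 1 = 2 / (1 - r) := by field_simp; ring
  have h9 : (1 + r) / (1 - r) - 1 = 2 * r / (1 - r) := by field_simp; ring
  rw [h8, h9]
  field_simp

theorem hypDist_zero_proj {τ z : ℂ} (hτ : ‖τ‖ = 1)
    (h1 : 1 ≤ ‖cay ((starRingEnd ℂ) τ * z)‖) :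
    hypDist 0 (proj τ z) = 1 / 2 * Real.log ‖cay ((starRingEnd ℂ) τ * z)‖ := by
  set ρ := ‖cay ((starRingEnd ℂ) τ * z)‖ with hρ
  obtain ⟨_, _, h3⟩ := ratio_aux (show 0 < ρ by linarith)
  have h4 : 0 ≤ (ρ - 1) / (ρ + 1) := div_nonneg (by linarith) (by linarith)
  have h5 : ‖(0 - proj τ z) / (1 - (starRingEnd ℂ) (proj τ z) * 0)‖ = (ρ - 1) / (ρ + 1) := by
    rw [mul_zero, sub_zero, div_one, zero_sub, norm_neg, proj, norm_mul, Complex.norm_real, hτ,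
      mul_one, ← hρ, Real.norm_of_nonneg h4]
  rw [hypDist, h5, h3]

end Pool.Agent.NH66.Speed
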