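import Pool.Agent.NH66.Speed.Gen
import Pool.Agent.H809R3.T5

/-!
# Julia's inequality at the Denjoy-Wolff point, and the half plane model
-/

set_option autoImplicit false

open Complex Set Filter Topology Metric

namespace Pool.Agent.NH66.Speed

variable {φ : ℝ → ℂ → ℂ} {τ : ℂ}

theorem julia (h : IsSemigroup φ) (hdw : IsDenjoyWolff φ τ) {t : ℝ} (ht : 0 ≤ t) {z : ℂ}
    (hz : z ∈ ball (0 : ℂ) 1) :
    ‖1 - (starRingEnd ℂ) τ * φ t z‖ ^ 2 * (1 - ‖z‖ ^ 2) ≤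
      ‖1 - (starRingEnd ℂ) τ * z‖ ^ 2 * (1 - ‖φ t z‖ ^ 2) := by
  rcases ht.lt_or_eq with htp | ht0
  swap
  · rw [← ht0, h.zero z hz]
  have h01 : (0 : ℂ) ∈ ball (0 : ℂ) 1 := by simp
  by_contra hcon
  push Not at hcon
  set ζ : ℕ → ℂ := fun n => φ (n * t) 0 with hζ
  have hζb : ∀ n, ζ n ∈ ball (0 : ℂ) 1 := fun n => h.maps _ (by positivity) 0 h01
  have hζs : ∀ n, φ t (ζ n) = ζ (n + 1) := by
    intro n
    simp only [hζ]
    rw [← h.add _ t (by positivity) ht 0 h01]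
    congr 1
    push_cast; ring
  have hζt : Tendsto ζ atTop (𝓝 τ) := by
    have h1 := hdw.2 0 h01
    have h2 : Tendsto (fun n : ℕ => (n : ℝ) * t) atTop atTop :=
      tendsto_natCast_atTop_atTop.atTop_mul_const htp
    exact h1.comp h2
  set a : ℕ → ℝ := fun n => 1 - ‖ζ n‖ ^ 2 with ha
  have hapos : ∀ n, 0 < a n := by
    intro n
    have := hζb n
    rw [mem_ball_zero_iff] at this
    simp only [ha]
    nlinarith [norm_nonneg (ζ n)]
  have ha0 : Tendsto a atTop (𝓝 0) := by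
    have h1 : Tendsto (fun n => 1 - ‖ζ n‖ ^ 2) atTop (𝓝 (1 - ‖τ‖ ^ 2)) :=
      tendsto_const_nhds.sub (hζt.norm.pow 2)
    rw [hdw.1] at h1
    simpa using h1
  have hsp : ∀ n, ‖1 - (starRingEnd ℂ) (ζ (n + 1)) * φ t z‖ ^ 2 * ((1 - ‖z‖ ^ 2) * a n) ≤
      ‖1 - (starRingEnd ℂ) (ζ n) * z‖ ^ 2 * ((1 - ‖φ t z‖ ^ 2) * a (n + 1)) := by
    intro n
    have := H809R3.T.schwarz_pick (φ t) (h.holo t ht) (fun w hw => by
      simpa using h.maps t ht w (by simpa using hw)) z (ζ n) (by simpa using hz)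
      (by simpa using hζb n)
    rw [hζs n] at this
    exact this
  have hL : Tendsto (fun n => ‖1 - (starRingEnd ℂ) (ζ (n + 1)) * φ t z‖ ^ 2 * (1 - ‖z‖ ^ 2)) atTop
      (𝓝 (‖1 - (starRingEnd ℂ) τ * φ t z‖ ^ 2 * (1 - ‖z‖ ^ 2))) := by
    have h1 : Tendsto (fun n => ζ (n + 1)) atTop (𝓝 τ) := hζt.comp (tendsto_add_atTop_nat 1)
    have h2 : Tendsto (fun n => (starRingEnd ℂ) (ζ (n + 1))) atTop (𝓝 ((starRingEnd ℂ) τ)) :=
      (Complex.continuous_conj.tendsto τ).comp h1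
    exact (((tendsto_const_nhds.sub (h2.mul_const _)).norm).pow 2).mul_const _
  have hR : Tendsto (fun n => ‖1 - (starRingEnd ℂ) (ζ n) * z‖ ^ 2 * (1 - ‖φ t z‖ ^ 2)) atTop
      (𝓝 (‖1 - (starRingEnd ℂ) τ * z‖ ^ 2 * (1 - ‖φ t z‖ ^ 2))) := by
    have h2 : Tendsto (fun n => (starRingEnd ℂ) (ζ n)) atTop (𝓝 ((starRingEnd ℂ) τ)) :=
      (Complex.continuous_conj.tendsto τ).comp hζt
    exact (((tendsto_const_nhds.sub (h2.mul_const _)).norm).pow 2).mul_const _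
  have hev := hR.eventually_lt hL hcon
  obtain ⟨N, hN⟩ := eventually_atTop.mp hev
  have hmono : ∀ n, N ≤ n → a n ≤ a (n + 1) := by
    intro n hn
    have h1 := hN n hn
    have h2 := hsp n
    have h3 := hapos n
    have h4 := hapos (n + 1)
    by_contra hlt
    push Not at hlt
    have h5 : 0 ≤ ‖1 - (starRingEnd ℂ) (ζ n) * z‖ ^ 2 * (1 - ‖φ t z‖ ^ 2) := by
      have h6 := h.maps t ht z hz
      rw [mem_ball_zero_iff] at h6
      have : 0 ≤ 1 - ‖φ t z‖ ^ 2 := by nlinarith [norm_nonneg (φ t z)]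
      positivity
    nlinarith
  have hge : ∀ n, N ≤ n → a N ≤ a n := by
    intro n hn
    induction n, hn using Nat.le_induction with
    | base => exact le_refl _
    | succ n hn ih => exact ih.trans (hmono n hn)
  have := ge_of_tendsto ha0 (eventually_atTop.mpr ⟨N, hge⟩)
  linarith [hapos N]

end Pool.Agent.NH66.Speed
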